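import Pool.Agent.H60EQ.BU

/-!
# Torus-equivariant symplectic embeddings of ellipsoids, trivial characters allowed: definitions
-/

open Set Filter Topology Complex
open scoped ENNReal

namespace Pool.Agent.EQZ

variable {ι : Type*} [Fintype ι]

/-- The open ellipsoid `E(a) = {z ∈ ℂ^ι : ∑ π |z_j|² / a_j < 1}`, for `a_j ∈ (0, ∞]`; the terms
with `a_j = ∞` are `0`. -/
def Ellipsoid (a : ι → ℝ≥0∞) : Set (ι → ℂ) :=
  {z | ∑ j, ENNReal.ofReal (Real.pi * ‖z j‖ ^ 2) / a j < 1}

/-- The standard symplectic form `ω₀(u, v) = ∑ (Re u_j Im v_j - Im u_j Re v_j)`. -/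
def omega0 (u v : ι → ℂ) : ℝ :=
  ∑ j, ((u j).re * (v j).im - (u j).im * (v j).re)

/-- `φ` is a differentiable symplectic map from (the open set) `U` to `V`. -/
structure IsSymplecticMap (U V : Set (ι → ℂ)) (φ : (ι → ℂ) → (ι → ℂ)) :
    Prop where
  differentiable : DifferentiableOn ℝ φ U
  mapsTo : MapsTo φ U V
  symplectic : ∀ z ∈ U, ∀ u v : ι → ℂ,
    omega0 (fderiv ℝ φ z u) (fderiv ℝ φ z v) = omega0 u v

/-- `φ` is a symplectic embedding of (the open set) `U` into `V`: smooth, a homeomorphism from `U`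
onto its image, and `φ^* ω₀ = ω₀` on `U`. -/
structure IsSymplecticEmbedding (U V : Set (ι → ℂ)) (φ : (ι → ℂ) → (ι → ℂ)) :
    Prop extends IsSymplecticMap U V φ where
  smooth : ContDiffOn ℝ ((⊤ : ℕ∞) : WithTop ℕ∞) φ U
  embedding : IsEmbedding (fun z : U => φ z)

/-- The linear action of `t ∈ ℝᵏ` (that is, of the torus `Tᵏ = (ℝ / 2π ℤ)ᵏ`) on `ℂ^ι` through the
characters `χ_j ∈ ℤᵏ`: the `j`-th coordinate is multiplied by `exp (i ⟨χ_j, t⟩)`. -/
noncomputable def act {k : ℕ} (χ : ι → Fin k → ℤ) (t : Fin k → ℝ) (z : ι → ℂ) :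
    ι → ℂ :=
  fun j => exp (((∑ l, (χ j l : ℝ) * t l : ℝ) : ℂ) * I) * z j

section proofs

/-- the ellipsoid in terms of the inverses `α_j = 1 / a_j ≥ 0` -/
def El (α : ι → ℝ) : Set (ι → ℂ) := {z | ∑ j, Real.pi * ‖z j‖ ^ 2 * α j < 1}

theorem ellipsoid_eq (a : ι → ℝ≥0∞) (ha : ∀ j, 0 < a j) :
    Ellipsoid a = El fun j => ((a j)⁻¹).toReal := by
  unfold Ellipsoid El
  ext z
  simp only [mem_ofPred_eq]
  have h1 : ∀ j, ENNReal.ofReal (Real.pi * ‖z j‖ ^ 2) / a j =
      ENNReal.ofReal (Real.pi * ‖z j‖ ^ 2 * ((a j)⁻¹).toReal) := by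
    intro j
    have h2 : (0 : ℝ) ≤ Real.pi * ‖z j‖ ^ 2 := by positivity
    rw [ENNReal.ofReal_mul h2, ENNReal.ofReal_toReal (ENNReal.inv_ne_top.2 (ha j).ne'),
      div_eq_mul_inv]
  simp only [h1]
  rw [← ENNReal.ofReal_sum_of_nonneg (fun j _ => by positivity), ENNReal.ofReal_lt_one]

theorem isOpen_el (α : ι → ℝ) : IsOpen (El α) := by
  unfold El
  refine isOpen_lt ?_ continuous_const
  fun_prop

theorem zero_mem (α : ι → ℝ) : (0 : ι → ℂ) ∈ El α := by
  simp [El]

theorem smul_mem {α : ι → ℝ} (hα : ∀ j, 0 ≤ α j) {z : ι → ℂ} (hz : z ∈ El α)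
    {t : ℝ} (ht0 : 0 ≤ t) (ht1 : t ≤ 1) : t • z ∈ El α := by
  unfold El at *
  simp only [mem_ofPred_eq] at *
  refine lt_of_le_of_lt (Finset.sum_le_sum fun j _ => ?_) hz
  have h1 : ‖(t • z) j‖ = t * ‖z j‖ := by
    rw [Pi.smul_apply, norm_smul, Real.norm_eq_abs, abs_of_nonneg ht0]
  rw [h1]
  have h2 : (t * ‖z j‖) ^ 2 ≤ ‖z j‖ ^ 2 := by
    apply pow_le_pow_left₀ (by positivity)
    exact mul_le_of_le_one_left (norm_nonneg _) ht1
  exact mul_le_mul_of_nonneg_right (mul_le_mul_of_nonneg_left h2 Real.pi_pos.le) (hα j)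

/-- the one-parameter group with real weights `w` -/
noncomputable def rot (w : ι → ℝ) (t : ℝ) (z : ι → ℂ) : ι → ℂ :=
  fun j => exp ((w j * t : ℝ) * I) * z j

/-- the Hamiltonian of the one-parameter group, without the factor `π`. -/
def ham (w : ι → ℝ) (z : ι → ℂ) : ℝ := ∑ j, w j * ((z j).re ^ 2 + (z j).im ^ 2)

theorem ham_eq (w : ι → ℝ) (z : ι → ℂ) : ham w z = ∑ j, w j * ‖z j‖ ^ 2 := by
  unfold ham
  refine Finset.sum_congr rfl fun j _ => ?_
  rw [Complex.sq_norm, Complex.normSq_apply]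
  ring

/-- the generator of the one-parameter group -/
noncomputable def gen (w : ι → ℝ) (z : ι → ℂ) : ι → ℂ :=
  fun j => (w j : ℂ) * I * z j

theorem hasDerivAt_rot (w : ι → ℝ) (z : ι → ℂ) :
    HasDerivAt (fun t : ℝ => rot w t z) (gen w z) 0 := by
  rw [hasDerivAt_pi]
  intro j
  unfold rot gen
  have h1 : HasDerivAt (fun t : ℝ => ((w j * t : ℝ) : ℂ) * I) ((w j : ℂ) * I) 0 := by
    have h0 : HasDerivAt (fun t : ℝ => w j * t) (w j) 0 := by
      simpa using (hasDerivAt_id (0 : ℝ)).const_mul (w j)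
    exact (h0.ofReal_comp).mul_const I
  have h2 := h1.cexp.mul_const (z j)
  simpa using h2

/-- the derivative of `ham w` at `z` in the direction `v` -/
theorem hasFDerivAt_ham (w : ι → ℝ) (z : ι → ℂ) :
    ∃ L : (ι → ℂ) →L[ℝ] ℝ, HasFDerivAt (ham w) L z ∧
      ∀ v, L v = - 2 * omega0 (gen w z) v := by
  have hre : ∀ j : ι, HasFDerivAt (fun z : ι → ℂ => (z j).re)
      (Complex.reCLM.comp (ContinuousLinearMap.proj (R := ℝ) j)) z := fun j =>
    (Complex.reCLM.comp (ContinuousLinearMap.proj (R := ℝ) (φ := fun _ : ι => ℂ)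
      j)).hasFDerivAt
  have him : ∀ j : ι, HasFDerivAt (fun z : ι → ℂ => (z j).im)
      (Complex.imCLM.comp (ContinuousLinearMap.proj (R := ℝ) j)) z := fun j =>
    (Complex.imCLM.comp (ContinuousLinearMap.proj (R := ℝ) (φ := fun _ : ι => ℂ)
      j)).hasFDerivAt
  have h := HasFDerivAt.fun_sum (u := Finset.univ) (fun j _ =>
    (((hre j).pow 2).add ((him j).pow 2)).const_mul (w j))
  refine ⟨_, h, fun v => ?_⟩
  simp only [omega0, gen, Finset.mul_sum, _root_.sum_apply]
  refine Finset.sum_congr rfl fun j _ => ?_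
  simp
  ring

theorem rot_zero (w : ι → ℝ) (z : ι → ℂ) : rot w 0 z = z := by
  ext j
  simp [rot]

/-- The moment map identity: an equivariant symplectic map intertwines the Hamiltonians. -/
theorem ham_comp {α : ι → ℝ} (hα : ∀ j, 0 ≤ α j) {w : ι → ℝ} {V : Set (ι → ℂ)}
    {φ : (ι → ℂ) → (ι → ℂ)} (hφ : IsSymplecticMap (El α) V φ)
    (he : ∀ t : ℝ, ∀ z ∈ El α, φ (rot w t z) = rot w t (φ z)) (hφ0 : ham w (φ 0) = 0)
    {z : ι → ℂ} (hz : z ∈ El α) : ham w (φ z) = ham w z := by
  have hder : ∀ z ∈ El α,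
      HasFDerivAt (fun z => ham w (φ z) - ham w z) (0 : (ι → ℂ) →L[ℝ] ℝ) z := by
    intro z hz
    have hφd : HasFDerivAt φ (fderiv ℝ φ z) z :=
      (hφ.differentiable.differentiableAt ((isOpen_el α).mem_nhds hz)).hasFDerivAt
    have hgen : fderiv ℝ φ z (gen w z) = gen w (φ z) := by
      have h1 : HasDerivAt (fun t : ℝ => φ (rot w t z)) (fderiv ℝ φ z (gen w z)) 0 := by
        have h0 := hasDerivAt_rot w z
        have hφ' : HasFDerivAt φ (fderiv ℝ φ z) (rot w 0 z) := by
          rw [rot_zero]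
          exact hφd
        exact hφ'.comp_hasDerivAt (0 : ℝ) h0
      have h2 : HasDerivAt (fun t : ℝ => φ (rot w t z)) (gen w (φ z)) 0 := by
        have h0 := hasDerivAt_rot w (φ z)
        have heq : (fun t : ℝ => φ (rot w t z)) = fun t : ℝ => rot w t (φ z) := by
          funext t
          exact he t z hz
        rw [heq]
        exact h0
      exact h1.unique h2
    obtain ⟨L, hL, hLv⟩ := hasFDerivAt_ham w z
    obtain ⟨L', hL', hLv'⟩ := hasFDerivAt_ham w (φ z)
    have h3 := (hL'.comp z hφd).sub hL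
    have h4 : L'.comp (fderiv ℝ φ z) - L = 0 := by
      ext v
      simp only [_root_.sub_apply, ContinuousLinearMap.comp_apply, _root_.zero_apply]
      rw [hLv, hLv', ← hgen, hφ.symplectic z hz]
      ring
    rw [h4] at h3
    exact h3
  have hseg : ∀ t ∈ Icc (0 : ℝ) 1, t • z ∈ El α := fun t ht => smul_mem hα hz ht.1 ht.2
  have hdt : ∀ t ∈ Icc (0 : ℝ) 1,
      HasDerivAt (fun t : ℝ => ham w (φ (t • z)) - ham w (t • z)) 0 t := by
    intro t ht
    have h0 : HasDerivAt (fun t : ℝ => t • z) z t := by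
      simpa using (hasDerivAt_id t).smul_const z
    have h1 := (hder _ (hseg t ht)).comp_hasDerivAt t h0
    simpa [Function.comp_def] using h1
  have hconst := constant_of_has_deriv_right_zero (a := (0 : ℝ)) (b := 1)
    (f := fun t : ℝ => ham w (φ (t • z)) - ham w (t • z))
    (fun t ht => (hdt t ht).continuousAt.continuousWithinAt)
    (fun t ht => (hdt t ⟨ht.1, ht.2.le⟩).hasDerivWithinAt)
  have h1 := hconst 1 ⟨zero_le_one, le_rfl⟩
  simp only [one_smul, zero_smul] at h1
  rw [hφ0] at h1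
  have hz0 : ham w (0 : ι → ℂ) = 0 := by
    simp [ham]
  rw [hz0] at h1
  linarith

/-- a point supported in `{P j, α_j < y p_j}` with `π ∑ p_j |z_j|² = 1 / y` is in `E` -/
theorem mem_of_ham {α p : ι → ℝ} {y : ℝ} (hy : 0 < y)
    {z : ι → ℂ} (hz : Real.pi * ham p z = 1 / y) (hsupp : ∀ j, z j ≠ 0 → α j < y * p j) :
    z ∈ El α := by
  unfold El
  simp only [mem_ofPred_eq]
  rw [ham_eq] at hz
  have hpi := Real.pi_pos
  obtain ⟨j0, hj0⟩ : ∃ j, z j ≠ 0 := by
    by_contra hcon
    push Not at hcon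
    have : ∑ j, p j * ‖z j‖ ^ 2 = 0 := Finset.sum_eq_zero fun j _ => by
      rw [hcon j]
      simp
    rw [this, mul_zero] at hz
    have := one_div_pos.2 hy
    linarith
  have hle : ∀ j, z j ≠ 0 → Real.pi * ‖z j‖ ^ 2 * α j < y * (Real.pi * (p j * ‖z j‖ ^ 2)) := by
    intro j hj
    have h0 : 0 < ‖z j‖ := norm_pos_iff.2 hj
    have h1 : 0 < Real.pi * ‖z j‖ ^ 2 := by positivity
    have h2 := mul_lt_mul_of_pos_left (hsupp j hj) h1
    linarith
  have hle' : ∀ j, Real.pi * ‖z j‖ ^ 2 * α j ≤ y * (Real.pi * (p j * ‖z j‖ ^ 2)) := by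
    intro j
    by_cases hj : z j = 0
    · rw [hj]
      simp
    · exact (hle j hj).le
  calc ∑ j, Real.pi * ‖z j‖ ^ 2 * α j
      < ∑ j, y * (Real.pi * (p j * ‖z j‖ ^ 2)) :=
        Finset.sum_lt_sum (fun j _ => hle' j) ⟨j0, Finset.mem_univ _, hle j0 hj0⟩
    _ = 1 := by
        rw [← Finset.mul_sum, ← Finset.mul_sum, hz]
        field_simp

/-- a point of `E` with `π ∑ p_j |z_j|² = 1 / y` has a nonzero coordinate with `α_j < y p_j` -/
theorem exists_ne_of_ham {β p : ι → ℝ} {y : ℝ} (hy : 0 < y)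
    {z : ι → ℂ} (hz : Real.pi * ham p z = 1 / y) (hmem : z ∈ El β) :
    ∃ j, β j < y * p j ∧ z j ≠ 0 := by
  by_contra hcon
  push Not at hcon
  unfold El at hmem
  simp only [mem_ofPred_eq] at hmem
  rw [ham_eq] at hz
  have hpi := Real.pi_pos
  have hle : ∀ j, y * (Real.pi * (p j * ‖z j‖ ^ 2)) ≤ Real.pi * ‖z j‖ ^ 2 * β j := by
    intro j
    by_cases hj : β j < y * p j
    · rw [hcon j hj]
      simp
    · rw [not_lt] at hj
      have h1 : 0 ≤ Real.pi * ‖z j‖ ^ 2 := by positivity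
      have h2 := mul_le_mul_of_nonneg_left hj h1
      linarith
  have h2 : ∑ j, y * (Real.pi * (p j * ‖z j‖ ^ 2)) = 1 := by
    rw [← Finset.mul_sum, ← Finset.mul_sum, hz]
    field_simp
  have h3 : ∑ j, y * (Real.pi * (p j * ‖z j‖ ^ 2)) ≤ ∑ j, Real.pi * ‖z j‖ ^ 2 * β j :=
    Finset.sum_le_sum fun j _ => hle j
  linarith

open Classical in
/-- The topological part. -/
theorem card_le {α β p : ι → ℝ} {P N : ι → Prop} (hβ : ∀ j, 0 ≤ β j) (hp : ∀ j, P j → 0 < p j)
    (hpN : ∀ j, N j → p j ≤ 0)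
    {φ : (ι → ℂ) → (ι → ℂ)} (hc : ContinuousOn φ (El α)) (hm : MapsTo φ (El α) (El β))
    (hsupp : ∀ z ∈ El α, (∀ j, ¬ P j → z j = 0) → ∀ j, ¬ P j → ¬ N j → φ z j = 0)
    (hodd : ∀ z ∈ El α, (∀ j, ¬ P j → z j = 0) → ∀ j, P j → φ (-z) j = -φ z j)
    (hH : ∀ z ∈ El α, (∀ j, ¬ P j → z j = 0) → ham p (φ z) = ham p z)
    {y : ℝ} (hy : 0 < y) :
    (Finset.univ.filter fun j => P j ∧ α j < y * p j).card ≤
      (Finset.univ.filter fun j => P j ∧ β j < y * p j).card := by
  by_contra hcon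
  push Not at hcon
  have hpi := Real.pi_pos
  have hdim : Module.finrank ℝ ({j : ι // P j ∧ β j < y * p j} → ℂ) <
      Module.finrank ℝ ({j : ι // P j ∧ α j < y * p j} → ℂ) := by
    rw [Module.finrank_pi_fintype, Module.finrank_pi_fintype]
    simp only [Complex.finrank_real_complex, Finset.sum_const, smul_eq_mul, Finset.card_univ]
    rw [Fintype.card_subtype, Fintype.card_subtype]
    omega
  -- extension by zero
  let v : ({j : ι // P j ∧ α j < y * p j} → ℂ) → (ι → ℂ) := fun u j =>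
    if hj : P j ∧ α j < y * p j then u ⟨j, hj⟩ else 0
  have hvc : Continuous v := by
    refine continuous_pi fun j => ?_
    by_cases hj : P j ∧ α j < y * p j
    · have : (fun u => v u j) = fun u => u ⟨j, hj⟩ := by
        funext u
        exact dif_pos hj
      rw [this]
      exact continuous_apply _
    · have : (fun u => v u j) = fun _ => 0 := by
        funext u
        exact dif_neg hj
      rw [this]
      exact continuous_const
  have hvsupp : ∀ u j, ¬ (P j ∧ α j < y * p j) → v u j = 0 := by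
    intro u j hj
    exact dif_neg hj
  have hvpos : ∀ u, u ≠ 0 → 0 < ham p (v u) := by
    intro u hu
    obtain ⟨⟨j, hj⟩, hj0⟩ : ∃ i, u i ≠ 0 := by
      by_contra hcon
      push Not at hcon
      exact hu (funext hcon)
    rw [ham_eq]
    refine Finset.sum_pos' (fun i _ => ?_) ⟨j, Finset.mem_univ _, ?_⟩
    · by_cases hi : P i ∧ α i < y * p i
      · have := hp i hi.1
        positivity
      · rw [hvsupp u i hi]
        simp
    · have h1 : v u j ≠ 0 := by
        have : v u j = u ⟨j, hj⟩ := dif_pos hj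
        rwa [this]
      have h2 : 0 < ‖v u j‖ := norm_pos_iff.2 h1
      have h3 := hp j hj.1
      positivity
  have hvneg : ∀ u, v (-u) = -v u := by
    intro u
    ext j
    by_cases hj : P j ∧ α j < y * p j
    · have h1 : v u j = u ⟨j, hj⟩ := dif_pos hj
      have h2 : v (-u) j = (-u) ⟨j, hj⟩ := dif_pos hj
      rw [Pi.neg_apply, h1, h2, Pi.neg_apply]
    · rw [Pi.neg_apply, hvsupp _ _ hj, hvsupp _ _ hj, neg_zero]
  have hhamneg : ∀ z : ι → ℂ, ham p (-z) = ham p z := by
    intro z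
    rw [ham_eq, ham_eq]
    simp
  have hhamsmul : ∀ (t : ℝ) (z : ι → ℂ), ham p (t • z) = t ^ 2 * ham p z := by
    intro t z
    rw [ham_eq, ham_eq, Finset.mul_sum]
    refine Finset.sum_congr rfl fun j _ => ?_
    rw [Pi.smul_apply, norm_smul, Real.norm_eq_abs, mul_pow, sq_abs]
    ring
  have hhamc : Continuous (ham p : (ι → ℂ) → ℝ) := by
    have : (ham p : (ι → ℂ) → ℝ) = fun z => ∑ j, p j * ‖z j‖ ^ 2 :=
      funext fun z => ham_eq p z
    rw [this]
    fun_prop
  -- normalise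
  let Z : ({j : ι // P j ∧ α j < y * p j} → ℂ) → (ι → ℂ) := fun u =>
    Real.sqrt (1 / y / (Real.pi * ham p (v u))) • v u
  have hZham : ∀ u, u ≠ 0 → Real.pi * ham p (Z u) = 1 / y := by
    intro u hu
    have h1 := hvpos u hu
    simp only [Z]
    rw [hhamsmul, Real.sq_sqrt (by positivity)]
    field_simp
  have hZsupp : ∀ u j, ¬ (P j ∧ α j < y * p j) → Z u j = 0 := by
    intro u j hj
    simp only [Z, Pi.smul_apply, hvsupp u j hj, smul_zero]
  have hZmem : ∀ u, u ≠ 0 → Z u ∈ El α := by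
    intro u hu
    refine mem_of_ham hy (hZham u hu) ?_
    intro j hj
    by_contra hc
    exact hj (hZsupp u j fun h => hc h.2)
  have hZP : ∀ u j, ¬ P j → Z u j = 0 := fun u j hj => hZsupp u j fun h => hj h.1
  have hZneg : ∀ u, Z (-u) = -Z u := by
    intro u
    simp only [Z]
    rw [hvneg, hhamneg, smul_neg]
  have hZc : ContinuousOn Z {0}ᶜ := by
    intro u hu
    have hu' : u ≠ 0 := hu
    have h1 := hvpos u hu'
    have h2 : ContinuousAt (fun u => Real.sqrt (1 / y / (Real.pi * ham p (v u)))) u := by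
      refine ContinuousAt.sqrt ?_
      refine ContinuousAt.div continuousAt_const ?_ (by positivity)
      exact (continuous_const.mul (hhamc.comp hvc)).continuousAt
    exact (h2.smul hvc.continuousAt).continuousWithinAt
  obtain ⟨u, hu, hu0⟩ := Pool.Agent.H60EQ.odd_zero hdim
    (fun u (k : {j : ι // P j ∧ β j < y * p j}) => φ (Z u) k) (by
      rw [continuousOn_pi]
      intro k
      exact (continuous_apply (k : ι)).comp_continuousOn
        (hc.comp hZc fun u hu => hZmem u hu)) (by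
      intro u hu
      funext k
      simp only [Pi.neg_apply]
      rw [hZneg, hodd _ (hZmem u hu) (hZP u) k k.2.1])
  have hmem := hZmem u hu
  obtain ⟨j, hj, hj0⟩ := exists_ne_of_ham (p := p) hy (z := φ (Z u)) (by
    rw [hH _ hmem (hZP u), hZham u hu]) (hm hmem)
  have hNj : ¬ N j := by
    intro hc
    have h1 : y * p j ≤ 0 := mul_nonpos_of_nonneg_of_nonpos hy.le (hpN j hc)
    linarith [hβ j]
  have hPj : P j := by
    by_contra hc
    exact hj0 (hsupp _ hmem (hZP u) j hc hNj)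
  exact hj0 (congrFun hu0 ⟨j, hPj, hj⟩)

theorem exp_mul_I_pi : exp ((Real.pi : ℂ) * I) = -1 := Complex.exp_pi_mul_I

/-- the linear one-parameter subgroup `s ↦ s • τ` of the torus -/
theorem act_smul {k : ℕ} (χ : ι → Fin k → ℤ) (τ : Fin k → ℝ) (s : ℝ) (z : ι → ℂ) :
    act χ (s • τ) z = rot (fun j => ∑ l, (χ j l : ℝ) * τ l) s z := by
  ext j
  unfold act rot
  congr 2
  have h1 : (∑ l, (χ j l : ℝ) * (s • τ) l : ℝ) = (∑ l, (χ j l : ℝ) * τ l) * s := by
    rw [Finset.sum_mul]
    refine Finset.sum_congr rfl fun l _ => ?_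
    rw [Pi.smul_apply, smul_eq_mul]
    ring
  rw [h1]

/-- if the `j`-th coordinate is fixed by `t`, it vanishes or the character is trivial at `t` -/
theorem exp_eq_one {k : ℕ} {χ : ι → Fin k → ℤ} {t : Fin k → ℝ} {y : ι → ℂ}
    (h : act χ t y = y) {j : ι} (hj : y j ≠ 0) :
    exp (((∑ l, (χ j l : ℝ) * t l : ℝ) : ℂ) * I) = 1 := by
  have h1 := congrFun h j
  unfold act at h1
  exact mul_right_cancel₀ hj (by rw [h1, one_mul])

theorem exp_ofReal_mul_I_eq_one {x : ℝ} (h : exp ((x : ℂ) * I) = 1) :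
    ∃ m : ℤ, x = m * (2 * Real.pi) := by
  rw [Complex.exp_eq_one_iff] at h
  obtain ⟨m, hm⟩ := h
  refine ⟨m, ?_⟩
  have h1 : (x : ℂ) = ((m * (2 * Real.pi) : ℝ) : ℂ) := by
    have h2 : (x : ℂ) * I = ((m * (2 * Real.pi) : ℝ) : ℂ) * I := by
      rw [hm]
      push_cast
      ring
    exact mul_right_cancel₀ Complex.I_ne_zero h2
  exact_mod_cast h1

/-- a real number all of whose real multiples lie in `2 π ℤ` is zero -/
theorem eq_zero_of_forall {x : ℝ} (h : ∀ s : ℝ, ∃ m : ℤ, x * s = m * (2 * Real.pi)) : x = 0 := by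
  by_contra hx
  obtain ⟨m, hm⟩ := h (Real.pi / x)
  have h1 : x * (Real.pi / x) = Real.pi := by field_simp
  rw [h1] at hm
  have h2 : (1 : ℝ) = m * 2 := by
    have h3 : Real.pi * 1 = Real.pi * (m * 2) := by linarith
    exact mul_left_cancel₀ Real.pi_ne_zero h3
  have h4 : (1 : ℤ) = m * 2 := by exact_mod_cast h2
  omega

/-- characters which are trivial on the kernel of `χ` are integer multiples of `χ` -/
theorem multiple_of_trivial {k : ℕ} (χ ψ : Fin k → ℤ) (hχ : χ ≠ 0)
    (h : ∀ t : Fin k → ℝ, (∃ m : ℤ, ∑ l, (χ l : ℝ) * t l = m * (2 * Real.pi)) →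
      ∃ m : ℤ, ∑ l, (ψ l : ℝ) * t l = m * (2 * Real.pi)) :
    ∃ m : ℤ, ψ = m • χ := by
  classical
  obtain ⟨i, hi⟩ : ∃ i, χ i ≠ 0 := by
    by_contra hcon
    push Not at hcon
    exact hχ (funext hcon)
  have hi' : (χ i : ℝ) ≠ 0 := by exact_mod_cast hi
  -- proportionality
  have hprop : ∀ l, (χ i : ℝ) * ψ l = χ l * ψ i := by
    intro l
    have h1 : ((χ i : ℝ) * ψ l - χ l * ψ i) = 0 := by
      apply eq_zero_of_forall
      intro s
      set t : Fin k → ℝ := fun r => s * ((if r = l then (χ i : ℝ) else 0) -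
        (if r = i then (χ l : ℝ) else 0)) with ht
      have hsum : ∀ ξ : Fin k → ℤ, ∑ r, (ξ r : ℝ) * t r = (χ i * ξ l - χ l * ξ i) * s := by
        intro ξ
        have h2 : ∀ r, (ξ r : ℝ) * t r = (if r = l then (ξ r : ℝ) * (χ i : ℝ) * s else 0) -
            (if r = i then (ξ r : ℝ) * (χ l : ℝ) * s else 0) := by
          intro r
          simp only [ht]
          by_cases h3 : r = l
          · by_cases h4 : r = i
            · rw [if_pos h3, if_pos h4, if_pos h3, if_pos h4]
              ring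
            · rw [if_pos h3, if_neg h4, if_pos h3, if_neg h4]
              ring
          · by_cases h4 : r = i
            · rw [if_neg h3, if_pos h4, if_neg h3, if_pos h4]
              ring
            · rw [if_neg h3, if_neg h4, if_neg h3, if_neg h4]
              ring
        simp only [h2]
        rw [Finset.sum_sub_distrib, Finset.sum_ite_eq' Finset.univ l, Finset.sum_ite_eq' Finset.univ i]
        simp only [Finset.mem_univ, if_true]
        ring
      obtain ⟨m, hm⟩ := h t ⟨0, by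
        rw [hsum χ]
        simp [mul_comm]⟩
      exact ⟨m, by rw [← hm, hsum ψ]⟩
    linarith
  -- integrality
  obtain ⟨m, hm⟩ := h (fun r => if r = i then 2 * Real.pi / χ i else 0) ⟨1, by
    simp only [mul_ite, mul_zero]
    rw [Finset.sum_ite_eq' Finset.univ i]
    simp only [Finset.mem_univ, if_true]
    field_simp
    simp⟩
  have hm' : (ψ i : ℝ) = m * χ i := by
    simp only [mul_ite, mul_zero] at hm
    rw [Finset.sum_ite_eq' Finset.univ i] at hm
    simp only [Finset.mem_univ, if_true] at hm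
    have h3 : (ψ i : ℝ) * (2 * Real.pi) = (m * χ i) * (2 * Real.pi) := by
      have h4 : (ψ i : ℝ) * (2 * Real.pi / χ i) * χ i = ψ i * (2 * Real.pi) := by
        field_simp
      rw [← h4, hm]
      ring
    exact mul_right_cancel₀ (by positivity) h3
  refine ⟨m, funext fun l => ?_⟩
  have h5 : (χ i : ℝ) * ψ l = χ i * (m * χ l) := by
    rw [hprop l, hm']
    ring
  have h6 : (ψ l : ℝ) = m * χ l := mul_left_cancel₀ hi' h5
  rw [Pi.smul_apply, smul_eq_mul]
  exact_mod_cast h6

open Classical in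
/-- the necessary condition -/
theorem class_card_le {k : ℕ} {χ : ι → Fin k → ℤ} {α β : ι → ℝ}
    (hα : ∀ j, 0 ≤ α j) (hβ : ∀ j, 0 ≤ β j) {φ : (ι → ℂ) → (ι → ℂ)} (hφ : IsSymplecticMap (El α) (El β) φ)
    (he : ∀ t : Fin k → ℝ, ∀ z ∈ El α, φ (act χ t z) = act χ t (φ z))
    {ψ : Fin k → ℤ} (hψ : ψ ≠ 0) {m : ι → ℕ} {P : ι → Prop}
    (hP : ∀ j, ∀ l : ℤ, 0 < l → χ j = l • ψ → P j)
    (hm : ∀ j, P j → χ j = m j • ψ ∧ Odd (m j)) {y : ℝ} (hy : 0 < y) :
    (Finset.univ.filter fun j => P j ∧ α j < y * m j).card ≤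
      (Finset.univ.filter fun j => P j ∧ β j < y * m j).card := by
  have hφ0 : ∀ j, χ j ≠ 0 → φ 0 j = 0 := by
    intro j hχj
    by_contra hj
    have h1 : ∀ t, act χ t (φ 0) = φ 0 := by
      intro t
      rw [← he t 0 (zero_mem α)]
      congr 1
      ext l
      simp [act]
    have hj' : φ 0 j ≠ 0 := hj
    obtain ⟨l, hl⟩ : ∃ l, χ j l ≠ 0 := by
      by_contra hcon
      push Not at hcon
      exact hχj (funext hcon)
    have hl' : (χ j l : ℝ) ≠ 0 := by exact_mod_cast hl
    have h2 := exp_eq_one (h1 fun r => if r = l then Real.pi / χ j l else 0) hj'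
    have h3 : ∑ r, (χ j r : ℝ) * (if r = l then Real.pi / χ j l else 0) = Real.pi := by
      simp only [mul_ite, mul_zero]
      rw [Finset.sum_ite_eq' Finset.univ l]
      simp only [Finset.mem_univ, if_true]
      field_simp
    rw [h3, exp_mul_I_pi] at h2
    norm_num at h2
  obtain ⟨l, hl⟩ : ∃ l, ψ l ≠ 0 := by
    by_contra hcon
    push Not at hcon
    exact hψ (funext hcon)
  have hl' : (ψ l : ℝ) ≠ 0 := by exact_mod_cast hl
  set τ : Fin k → ℝ := fun r => if r = l then 1 / ψ l else 0 with hτ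
  have hτψ : ∑ r, (ψ r : ℝ) * τ r = 1 := by
    rw [hτ]
    simp only [mul_ite, mul_zero]
    rw [Finset.sum_ite_eq' Finset.univ l]
    simp only [Finset.mem_univ, if_true]
    field_simp
  set w : ι → ℝ := fun j => ∑ r, (χ j r : ℝ) * τ r with hw
  have hw0 : ∀ j, χ j = 0 → w j = 0 := by
    intro j hj
    rw [hw]
    simp [hj]
  have hφ0' : ham w (φ 0) = 0 := by
    rw [ham_eq]
    refine Finset.sum_eq_zero fun j _ => ?_
    by_cases hj : χ j = 0
    · rw [hw0 j hj, zero_mul]
    · rw [hφ0 j hj]; simp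
  have hw1 : ∀ j, P j → w j = m j := by
    intro j hj
    rw [hw]
    simp only
    rw [(hm j hj).1]
    have h1 : ∀ r, (((m j • ψ) r : ℤ) : ℝ) * τ r = m j * ((ψ r : ℝ) * τ r) := by
      intro r
      rw [Pi.smul_apply, nsmul_eq_mul]
      push_cast
      ring
    simp only [h1]
    rw [← Finset.mul_sum, hτψ, mul_one]
  have hrot : ∀ (s : ℝ), ∀ z ∈ El α, φ (rot w s z) = rot w s (φ z) := by
    intro s z hz
    rw [← act_smul χ τ s z, ← act_smul χ τ s (φ z)]
    exact he _ z hz
  -- the subspace of the multiples of the character is preserved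
  have hsupp : ∀ z ∈ El α, (∀ j, ¬ P j → z j = 0) → ∀ j, ¬ P j →
      ¬ (∃ l : ℤ, l ≤ 0 ∧ χ j = l • ψ) → φ z j = 0 := by
    intro z hz hzs j hj hj0
    by_contra hne
    obtain ⟨l, hl⟩ : ∃ l : ℤ, χ j = l • ψ := by
      apply multiple_of_trivial ψ (χ j) hψ
      intro t ht
      obtain ⟨q, hq⟩ := ht
      have h1 : act χ t z = z := by
        ext r
        unfold act
        by_cases hr : P r
        · have h0 : ∑ l, (χ r l : ℝ) * t l = (m r * q : ℤ) * (2 * Real.pi) := by
            rw [(hm r hr).1]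
            have h1 : ∀ l, (((m r • ψ) l : ℤ) : ℝ) * t l = m r * ((ψ l : ℝ) * t l) := by
              intro l
              rw [Pi.smul_apply, nsmul_eq_mul]
              push_cast
              ring
            simp only [h1]
            rw [← Finset.mul_sum, hq]
            push_cast
            ring
          rw [h0]
          have h2 : ((((m r * q : ℤ) : ℝ) * (2 * Real.pi) : ℝ) : ℂ) * I =
              ((m r * q : ℤ) : ℂ) * (2 * Real.pi * I) := by
            push_cast
            ring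
          rw [h2, Complex.exp_int_mul_two_pi_mul_I, one_mul]
        · rw [hzs r hr, mul_zero]
      have h3 : act χ t (φ z) = φ z := by
        rw [← he t z hz, h1]
      exact exp_ofReal_mul_I_eq_one (exp_eq_one h3 hne)
    rcases lt_or_ge 0 l with h | h
    · exact hj (hP j l h hl)
    · exact hj0 ⟨l, h, hl⟩
  -- the weights, made zero off the multiples of `ψ`
  have hwN : ∀ j, ∀ l : ℤ, χ j = l • ψ → w j = l := by
    intro j l hjl
    rw [hw]
    simp only
    rw [hjl]
    have h1 : ∀ r, (((l • ψ) r : ℤ) : ℝ) * τ r = l * ((ψ r : ℝ) * τ r) := by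
      intro r
      rw [Pi.smul_apply, smul_eq_mul]
      push_cast
      ring
    simp only [h1]
    rw [← Finset.mul_sum, hτψ, mul_one]
  set p : ι → ℝ := fun j => if P j ∨ ∃ l : ℤ, l ≤ 0 ∧ χ j = l • ψ then w j else 0 with hpdef
  have hpP : ∀ j, P j → p j = m j := by
    intro j hj
    rw [hpdef]
    simp only
    rw [if_pos (Or.inl hj), hw1 j hj]
  have hpN : ∀ j, (∃ l : ℤ, l ≤ 0 ∧ χ j = l • ψ) → p j ≤ 0 := by
    rintro j ⟨l, hl, hjl⟩
    rw [hpdef]
    simp only
    rw [if_pos (Or.inr ⟨l, hl, hjl⟩), hwN j l hjl]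
    exact_mod_cast hl
  have hham : ∀ z : ι → ℂ, (∀ j, ¬ P j → ¬ (∃ l : ℤ, l ≤ 0 ∧ χ j = l • ψ) → z j = 0) →
      ham w z = ham p z := by
    intro z hz
    rw [ham_eq, ham_eq]
    refine Finset.sum_congr rfl fun j _ => ?_
    by_cases hj : P j ∨ ∃ l : ℤ, l ≤ 0 ∧ χ j = l • ψ
    · rw [hpdef]
      simp only
      rw [if_pos hj]
    · push Not at hj
      rw [hz j hj.1 (fun ⟨l, h1, h2⟩ => hj.2 l h1 h2)]
      simp
  have hmain := card_le (α := α) (β := β) (p := p) (P := P)
    (N := fun j => ∃ l : ℤ, l ≤ 0 ∧ χ j = l • ψ) hβ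
    (fun j hj => by
      have := (hm j hj).2.pos
      rw [hpP j hj]
      exact_mod_cast this)
    hpN
    hφ.differentiable.continuousOn hφ.mapsTo hsupp (by
      intro z hz hzs j hj
      have h1 : rot w Real.pi z = -z := by
        ext j
        unfold rot
        by_cases hj : P j
        · rw [hw1 j hj]
          obtain ⟨q, hq⟩ := (hm j hj).2
          have h2 : (((m j : ℝ) * Real.pi : ℝ) : ℂ) * I =
              Real.pi * I + q * (2 * Real.pi * I) := by
            rw [hq]
            push_cast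
            ring
          rw [h2, Complex.exp_add, Complex.exp_nat_mul_two_pi_mul_I, Complex.exp_pi_mul_I]
          simp
        · rw [Pi.neg_apply, hzs j hj]
          simp
      rw [← h1, hrot _ z hz]
      unfold rot
      rw [hw1 j hj]
      obtain ⟨q, hq⟩ := (hm j hj).2
      have h2 : (((m j : ℝ) * Real.pi : ℝ) : ℂ) * I =
          Real.pi * I + q * (2 * Real.pi * I) := by
        rw [hq]
        push_cast
        ring
      rw [h2, Complex.exp_add, Complex.exp_nat_mul_two_pi_mul_I, Complex.exp_pi_mul_I]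
      simp) (by
      intro z hz hzs
      rw [← hham z fun j hj _ => hzs j hj, ← hham _ (hsupp z hz hzs)]
      exact ham_comp hα hφ hrot hφ0' hz) hy
  have e1 : ∀ γ : ι → ℝ, (Finset.univ.filter fun j => P j ∧ γ j < y * p j)
      = Finset.univ.filter fun j => P j ∧ γ j < y * m j := by
    intro γ
    refine Finset.filter_congr fun j _ => ?_
    constructor
    · rintro ⟨h1, h2⟩
      exact ⟨h1, by rwa [hpP j h1] at h2⟩
    · rintro ⟨h1, h2⟩
      exact ⟨h1, by rwa [hpP j h1]⟩
  rw [e1, e1] at hmain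
  exact hmain

/-- a threshold slightly above `x` -/
theorem exists_threshold (β : ι → ℝ) (x : ℝ) : ∃ y, x < y ∧ ∀ i, β i < y → β i ≤ x := by
  classical
  by_cases h : (Finset.univ.filter fun i => x < β i).Nonempty
  · obtain ⟨m, hm, hmin⟩ := Finset.exists_min_image _ β h
    refine ⟨β m, ?_, ?_⟩
    · simpa using hm
    · intro i hi
      by_contra hcon
      exact absurd (hmin i (by simpa using hcon)) (not_le.2 hi)
  · refine ⟨x + 1, by linarith, ?_⟩
    intro i _
    by_contra hcon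
    exact h ⟨i, by simpa using hcon⟩

open Classical in
/-- a matching from the counting conditions -/
theorem exists_perm {κ : Type*} (c : ι → κ) (α β : ι → ℝ) (hα : ∀ j, 0 ≤ α j)
    (h : ∀ i : ι, ∀ y : ℝ, 0 < y →
      (Finset.univ.filter fun j => c j = c i ∧ α j < y).card ≤
        (Finset.univ.filter fun j => c j = c i ∧ β j < y).card) :
    ∃ σ : Equiv.Perm (ι), (∀ j, c (σ j) = c j) ∧ ∀ j, β (σ j) ≤ α j := by
  set t : ι → Finset (ι) := fun j =>
    Finset.univ.filter fun i => c i = c j ∧ β i ≤ α j with ht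
  have hmem : ∀ i j, i ∈ t j ↔ c i = c j ∧ β i ≤ α j := by
    intro i j
    rw [ht]
    simp
  have hall : ∀ s : Finset (ι), s.card ≤ (s.biUnion t).card := by
    intro s
    have h1 : (s : Set (ι)).MapsTo c (s.image c) := by
      intro j hj
      exact Finset.mem_coe.2 (Finset.mem_image_of_mem c (Finset.mem_coe.1 hj))
    have h2 : ((s.biUnion t : Finset (ι)) : Set (ι)).MapsTo c (s.image c) := by
      intro i hi
      obtain ⟨j, hj, hij⟩ := Finset.mem_biUnion.1 (Finset.mem_coe.1 hi)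
      rw [((hmem i j).1 hij).1]
      exact Finset.mem_coe.2 (Finset.mem_image_of_mem c hj)
    rw [Finset.card_eq_sum_card_fiberwise h1, Finset.card_eq_sum_card_fiberwise h2]
    refine Finset.sum_le_sum fun b hb => ?_
    obtain ⟨j1, hj1, rfl⟩ := Finset.mem_image.1 hb
    have hne : (s.filter fun a => c a = c j1).Nonempty := ⟨j1, by simp [hj1]⟩
    obtain ⟨j0, hj0, hmax⟩ := Finset.exists_max_image _ α hne
    rw [Finset.mem_filter] at hj0
    obtain ⟨y, hy, hyβ⟩ := exists_threshold β (α j0)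
    have h3 := h j0 y (lt_of_le_of_lt (hα j0) hy)
    refine le_trans (Finset.card_le_card ?_) (le_trans h3 (Finset.card_le_card ?_))
    · intro j hj
      have h4 := hmax j hj
      rw [Finset.mem_filter] at hj
      simp only [Finset.mem_filter, Finset.mem_univ, true_and]
      exact ⟨by rw [hj.2, hj0.2], lt_of_le_of_lt h4 hy⟩
    · intro i hi
      simp only [Finset.mem_filter, Finset.mem_univ, true_and] at hi
      rw [Finset.mem_filter]
      refine ⟨Finset.mem_biUnion.2 ⟨j0, hj0.1, (hmem i j0).2 ⟨hi.1, hyβ i hi.2⟩⟩, ?_⟩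
      rw [hi.1, hj0.2]
  obtain ⟨f, hf, hft⟩ := (Finset.all_card_le_biUnion_card_iff_exists_injective t).1 hall
  refine ⟨Equiv.ofBijective f (Finite.injective_iff_bijective.1 hf), ?_, ?_⟩
  · intro j
    exact ((hmem _ _).1 (hft j)).1
  · intro j
    exact ((hmem _ _).1 (hft j)).2

theorem act_perm {k : ℕ} {χ : ι → Fin k → ℤ} {σ : Equiv.Perm (ι)}
    (hσ : ∀ j, χ (σ j) = χ j) (t : Fin k → ℝ) (z : ι → ℂ) :
    (fun j => act χ t z (σ.symm j)) = act χ t fun j => z (σ.symm j) := by
  ext j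
  unfold act
  have h1 : χ (σ.symm j) = χ j := by
    rw [← hσ (σ.symm j), Equiv.apply_symm_apply]
  rw [h1]

/-- the coordinate permutation -/
theorem perm_embedding {α β : ι → ℝ} (σ : Equiv.Perm (ι)) (hσ : ∀ j, β (σ j) ≤ α j) :
    IsSymplecticEmbedding (El α) (El β) (fun z j => z (σ.symm j)) := by
  set L : (ι → ℂ) ≃L[ℝ] (ι → ℂ) :=
    (ContinuousLinearEquiv.piCongrLeft ℝ (fun _ => ℂ) σ) with hL
  have hLe : (fun (z : ι → ℂ) j => z (σ.symm j)) = L := by
    funext z j
    rw [hL]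
    simp [ContinuousLinearEquiv.piCongrLeft, Equiv.piCongrLeft_apply]
  have hmaps : MapsTo (fun (z : ι → ℂ) j => z (σ.symm j)) (El α) (El β) := by
    intro z hz
    unfold El at *
    simp only [mem_ofPred_eq] at *
    refine lt_of_le_of_lt ?_ hz
    rw [← Equiv.sum_comp σ]
    simp only [Equiv.symm_apply_apply]
    refine Finset.sum_le_sum fun j _ => ?_
    exact mul_le_mul_of_nonneg_left (hσ j) (by positivity)
  refine ⟨⟨?_, hmaps, ?_⟩, ?_, ?_⟩
  · rw [hLe]
    exact L.differentiable.differentiableOn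
  · intro z _ u v
    rw [hLe, L.fderiv]
    have h1 : ∀ u : ι → ℂ, (L : (ι → ℂ) →L[ℝ] (ι → ℂ)) u = fun j => u (σ.symm j) := by
      intro u
      exact (congrFun hLe u).symm
    rw [h1, h1]
    unfold omega0
    rw [← Equiv.sum_comp σ]
    simp only [Equiv.symm_apply_apply]
  · rw [hLe]
    exact L.contDiff.contDiffOn
  · have h1 : (fun z : El α => (fun j => (z : ι → ℂ) (σ.symm j))) =
        L ∘ (Subtype.val : El α → (ι → ℂ)) := by
      funext z
      exact congrFun hLe z
    rw [h1]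
    exact L.toHomeomorph.isEmbedding.comp IsEmbedding.subtypeVal

/-- The necessary condition in terms of the inverse parameters. -/
theorem exists_perm_of_map {k : ℕ} {χ : ι → Fin k → ℤ}
    (hχ : ∀ i j, χ i ≠ 0 → ∀ m : ℤ, 2 ≤ m → χ j ≠ m • χ i) {α β : ι → ℝ}
    (hα : ∀ j, 0 ≤ α j) (hβ : ∀ j, 0 ≤ β j)
    {φ : (ι → ℂ) → (ι → ℂ)} (hφ : IsSymplecticMap (El α) (El β) φ)
    (he : ∀ t : Fin k → ℝ, ∀ z ∈ El α, φ (act χ t z) = act χ t (φ z)) :
    ∃ σ : Equiv.Perm ι, (∀ j, χ (σ j) = χ j) ∧ ∀ j, χ j ≠ 0 → β (σ j) ≤ α j := by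
  classical
  obtain ⟨σ, hσ1, hσ2⟩ := exists_perm χ (fun j => if χ j = 0 then 0 else α j)
    (fun j => if χ j = 0 then 0 else β j) (fun j => by
      by_cases h : χ j = 0
      · simp [h]
      · simp only [h, if_false]; exact hα j) (fun i y hy => by
      by_cases hi : χ i = 0
      · apply Finset.card_le_card
        intro j hj
        simp only [Finset.mem_filter, Finset.mem_univ, true_and] at hj ⊢
        refine ⟨hj.1, ?_⟩
        have h1 : χ j = 0 := by rw [hj.1, hi]
        simp only [h1, if_true]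
        exact hy
      · have h := class_card_le hα hβ hφ he hi (m := fun _ => 1) (P := fun j => χ j = χ i)
          (fun j l hl hjl => by
            by_contra hne
            have h1 : l ≠ 1 := by
              rintro rfl
              exact hne (by rw [hjl, one_smul])
            exact hχ i j hi l (by omega) hjl)
          (fun j hj => ⟨by rw [hj, one_smul], odd_one⟩) hy
        simp only [Nat.cast_one, mul_one] at h
        refine le_trans (Finset.card_le_card ?_) (le_trans h (Finset.card_le_card ?_))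
        · intro j hj
          simp only [Finset.mem_filter, Finset.mem_univ, true_and] at hj ⊢
          refine ⟨hj.1, ?_⟩
          have h2 := hj.2
          rwa [if_neg (by rw [hj.1]; exact hi)] at h2
        · intro j hj
          simp only [Finset.mem_filter, Finset.mem_univ, true_and] at hj ⊢
          refine ⟨hj.1, ?_⟩
          rw [if_neg (by rw [hj.1]; exact hi)]
          exact hj.2)
  refine ⟨σ, hσ1, fun j hj => ?_⟩
  have h1 := hσ2 j
  have h2 : χ (σ j) ≠ 0 := by rw [hσ1]; exact hj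
  rwa [if_neg h2, if_neg hj] at h1

end proofs

end Pool.Agent.EQZ
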