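import Pool.Agent.EQZ.SuspMain

/-!
# Reduction of the equivariant embedding problem to the fixed ellipsoids
-/

open Set Filter Topology Complex
open scoped ENNReal

namespace Pool.Agent.EQZ

noncomputable section

variable {ι : Type*} [Fintype ι] (N : ι → Prop) [DecidablePred N]

/-- extension by zero -/
def ext0 (z : {j // N j} → ℂ) : ι → ℂ := fun j => if h : N j then z ⟨j, h⟩ else 0

variable {N}

theorem ext0_N (z : {j // N j} → ℂ) (j : {j // N j}) : ext0 N z j = z j := dif_pos j.2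

theorem ext0_W (z : {j // N j} → ℂ) {j : ι} (hj : ¬ N j) : ext0 N z j = 0 := dif_neg hj

/-- extension by zero as a linear map -/
def ext0L (N : ι → Prop) [DecidablePred N] : ({j // N j} → ℂ) →L[ℝ] (ι → ℂ) :=
  ContinuousLinearMap.pi fun j => if h : N j then
    ContinuousLinearMap.proj (R := ℝ) (φ := fun _ : {j // N j} => ℂ) ⟨j, h⟩ else 0

theorem ext0L_apply (z : {j // N j} → ℂ) : ext0L N z = ext0 N z := by
  funext j
  unfold ext0L ext0
  rw [ContinuousLinearMap.pi_apply]
  by_cases h : N j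
  · rw [dif_pos h, dif_pos h]; rfl
  · rw [dif_neg h, dif_neg h]; rfl

theorem ext0_mem {α : ι → ℝ} {z : {j // N j} → ℂ} (hz : z ∈ El fun j : {j // N j} => α j) :
    ext0 N z ∈ El α := by
  change ∑ j, Real.pi * ‖ext0 N z j‖ ^ 2 * α j < 1
  rw [sum_split N, Finset.sum_eq_zero (s := (Finset.univ : Finset {j // ¬ N j})), add_zero]
  · simp_rw [ext0_N]
    exact hz
  · intro j _
    rw [ext0_W z j.2]
    simp

theorem res_mem {β : ι → ℝ} (hβ : ∀ j, 0 ≤ β j) {z : ι → ℂ} (hz : z ∈ El β) :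
    res N z ∈ El fun j : {j // N j} => β j := by
  have h1 : ∑ j, Real.pi * ‖z j‖ ^ 2 * β j < 1 := hz
  rw [sum_split N] at h1
  have h2 : 0 ≤ ∑ j : {j // ¬ N j}, Real.pi * ‖z j‖ ^ 2 * β j :=
    Finset.sum_nonneg fun j _ => mul_nonneg (by positivity) (hβ j)
  change ∑ j : {j // N j}, Real.pi * ‖z j‖ ^ 2 * β j < 1
  linarith

/-- the points fixed by the torus -/
theorem eq_zero_of_fixed {k : ℕ} {χ : ι → Fin k → ℤ} {y : ι → ℂ} (h : ∀ t, act χ t y = y)
    {j : ι} (hχj : χ j ≠ 0) : y j = 0 := by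
  by_contra hj
  obtain ⟨l, hl⟩ : ∃ l, χ j l ≠ 0 := by
    by_contra hcon
    push Not at hcon
    exact hχj (funext hcon)
  have hl' : (χ j l : ℝ) ≠ 0 := by exact_mod_cast hl
  have h2 := exp_eq_one (h fun r => if r = l then Real.pi / χ j l else 0) hj
  have h3 : ∑ r, (χ j r : ℝ) * (if r = l then Real.pi / χ j l else 0) = Real.pi := by
    simp only [mul_ite, mul_zero]
    rw [Finset.sum_ite_eq' Finset.univ l]
    simp only [Finset.mem_univ, if_true]
    field_simp
  rw [h3, exp_mul_I_pi] at h2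
  norm_num at h2

/-- an equivariant embedding restricts to an embedding of the fixed ellipsoids -/
theorem restrict_embedding {k : ℕ} {χ : ι → Fin k → ℤ} (hN : ∀ j, N j ↔ χ j = 0) {α β : ι → ℝ}
    (hβ : ∀ j, 0 ≤ β j) {φ : (ι → ℂ) → (ι → ℂ)}
    (hφ : IsSymplecticEmbedding (El α) (El β) φ)
    (he : ∀ t : Fin k → ℝ, ∀ z ∈ El α, φ (act χ t z) = act χ t (φ z)) :
    IsSymplecticEmbedding (El fun j : {j // N j} => α j) (El fun j : {j // N j} => β j)
      (fun z j => φ (ext0 N z) j) := by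
  have hfix : ∀ z ∈ El (fun j : {j // N j} => α j), ∀ j, ¬ N j → φ (ext0 N z) j = 0 := by
    intro z hz j hj
    apply eq_zero_of_fixed (χ := χ) _ (fun h => hj ((hN j).2 h))
    intro t
    rw [← he t _ (ext0_mem hz)]
    congr 1
    funext i
    unfold act
    by_cases hi : N i
    · rw [(hN i).1 hi]; simp
    · rw [ext0_W z hi, mul_zero]
  have hfun : (fun (z : {j // N j} → ℂ) (j : {j // N j}) => φ (ext0 N z) j)
      = fun z => res N (φ (ext0L N z)) := by
    funext z j
    rw [ext0L_apply]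
    rfl
  have hmaps : MapsTo (ext0L N) (El fun j : {j // N j} => α j) (El α) := by
    intro z hz
    rw [ext0L_apply]
    exact ext0_mem hz
  rw [hfun]
  refine isSymplecticEmbedding_of_injOn (isOpen_el _) ?_ ?_ ?_ ?_
  · exact (res N).contDiff.comp_contDiffOn
      (hφ.smooth.comp (ext0L N).contDiff.contDiffOn hmaps)
  · intro z hz
    exact res_mem hβ (hφ.mapsTo (hmaps hz))
  · intro z hz z' hz' h
    have h1 : φ (ext0L N z) = φ (ext0L N z') := by
      funext j
      by_cases hj : N j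
      · exact congrFun h ⟨j, hj⟩
      · rw [ext0L_apply, ext0L_apply, hfix z hz j hj, hfix z' hz' j hj]
    have h2 := hφ.embedding.injective (a₁ := ⟨ext0L N z, hmaps hz⟩)
      (a₂ := ⟨ext0L N z', hmaps hz'⟩) h1
    have h3 : ext0L N z = ext0L N z' := congrArg Subtype.val h2
    funext j
    have h4 := congrFun h3 j
    rwa [ext0L_apply, ext0L_apply, ext0_N, ext0_N] at h4
  · intro z hz u v
    have hφd : HasFDerivAt φ (fderiv ℝ φ (ext0L N z)) (ext0L N z) :=
      (hφ.differentiable.differentiableAt ((isOpen_el α).mem_nhds (hmaps hz))).hasFDerivAt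
    have h0 : HasFDerivAt (fun z => φ (ext0L N z)) ((fderiv ℝ φ (ext0L N z)).comp (ext0L N)) z :=
      hφd.comp z (ext0L N).hasFDerivAt
    have h1 : HasFDerivAt (fun z => res N (φ (ext0L N z)))
        ((res N).comp ((fderiv ℝ φ (ext0L N z)).comp (ext0L N))) z :=
      (res N).hasFDerivAt.comp z h0
    -- the other components of the derivative vanish
    have hW : ∀ u, ∀ j, ¬ N j → fderiv ℝ φ (ext0L N z) (ext0L N u) j = 0 := by
      intro u j hj
      have h2 : HasFDerivAt (fun z => φ (ext0L N z) j)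
          ((ContinuousLinearMap.proj (R := ℝ) (φ := fun _ : ι => ℂ) j).comp
            ((fderiv ℝ φ (ext0L N z)).comp (ext0L N))) z := by
        rw [hasFDerivAt_pi'] at h0
        exact h0 j
      have h3 : HasFDerivAt (fun z => φ (ext0L N z) j)
          (0 : ({j // N j} → ℂ) →L[ℝ] ℂ) z := by
        refine (hasFDerivAt_const (0 : ℂ) z).congr_of_eventuallyEq ?_
        filter_upwards [(isOpen_el (fun j : {j // N j} => α j)).mem_nhds hz] with y hy
        rw [ext0L_apply]
        exact hfix y hy j hj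
      exact DFunLike.congr_fun (h2.unique h3) u
    rw [h1.fderiv]
    have h4 := hφ.symplectic _ (hmaps hz) (ext0L N u) (ext0L N v)
    have h5 : ∀ u v : ι → ℂ, (∀ j, ¬ N j → u j = 0) →
        omega0 u v = omega0 (res N u) (res N v) := by
      intro u v hu
      unfold omega0
      rw [sum_split N, Finset.sum_eq_zero (s := (Finset.univ : Finset {j // ¬ N j})), add_zero]
      · rfl
      · intro j _
        rw [hu j j.2]
        simp
    rw [h5 _ _ (hW u), h5 (ext0L N u) (ext0L N v) (fun j hj => by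
      rw [ext0L_apply]; exact ext0_W u hj)] at h4
    have h6 : ∀ u : {j // N j} → ℂ, res N (ext0L N u) = u := by
      intro u
      funext j
      rw [ext0L_apply, res_apply, ext0_N]
    rw [h6, h6] at h4
    exact h4

/-- sufficiency -/
theorem exists_equivariant {k : ℕ} {χ : ι → Fin k → ℤ} (hN : ∀ j, N j ↔ χ j = 0) {α β : ι → ℝ}
    (hα : ∀ j, 0 ≤ α j) {ψ : ({j // N j} → ℂ) → ({j // N j} → ℂ)}
    (hψ : IsSymplecticEmbedding (El fun j : {j // N j} => α j) (El fun j : {j // N j} => β j) ψ)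
    {σ : Equiv.Perm ι} (hσ : ∀ j, χ (σ j) = χ j) (hσ2 : ∀ j, χ j ≠ 0 → β (σ j) ≤ α j) :
    ∃ φ, IsSymplecticEmbedding (El α) (El β) φ ∧
      ∀ t : Fin k → ℝ, ∀ z ∈ El α, φ (act χ t z) = act χ t (φ z) := by
  classical
  set β' : ι → ℝ := fun j => if N j then β j else α j with hβ'
  have hβN : ∀ j, N j → β' j = β j := fun j hj => if_pos hj
  have hβW : ∀ j, ¬ N j → β' j = α j := fun j hj => if_neg hj
  have hψ' : IsSymplecticEmbedding (El fun j : {j // N j} => α j)
      (El fun j : {j // N j} => β' j) ψ := by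
    have : (fun j : {j // N j} => β' j) = fun j : {j // N j} => β j := by
      funext j
      exact hβN j j.2
    rw [this]
    exact hψ
  obtain ⟨φ₁, hφ₁, he₁⟩ := susp_embedding hα hβW hψ'
  have hinv : ∀ j, ¬ N (σ j) ↔ ¬ N j := by
    intro j
    rw [hN, hN, hσ]
  set τ : Equiv.Perm ι := Equiv.Perm.ofSubtype (σ.subtypePerm (p := fun j => ¬ N j) hinv) with hτ
  have hτN : ∀ j, N j → τ j = j := fun j hj =>
    Equiv.Perm.ofSubtype_apply_of_not_mem (p := fun j => ¬ N j) _ (not_not.2 hj)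
  have hτW : ∀ j, ¬ N j → τ j = σ j := by
    intro j hj
    exact Equiv.Perm.ofSubtype_apply_of_mem (p := fun j => ¬ N j) (σ.subtypePerm hinv) hj
  have hτβ : ∀ j, β (τ j) ≤ β' j := by
    intro j
    by_cases hj : N j
    · rw [hτN j hj, hβN j hj]
    · rw [hτW j hj, hβW j hj]
      exact hσ2 j fun h => hj ((hN j).2 h)
  have hτχ : ∀ j, χ (τ j) = χ j := by
    intro j
    by_cases hj : N j
    · rw [hτN j hj]
    · rw [hτW j hj]; exact hσ j
  refine ⟨_, IsSymplecticEmbedding.comp (isOpen_el α) (isOpen_el β')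
    (perm_embedding τ hτβ) hφ₁, ?_⟩
  intro t z _
  simp only [Function.comp_apply]
  rw [he₁ k χ (fun j hj => (hN j).1 hj) t z]
  exact act_perm hτχ t (φ₁ z)

end

end Pool.Agent.EQZ
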