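import Pool.Agent.EQZ.Core

/-!
# The symplectic form as a bilinear map, symplectic maps and their primitives
-/

open Set Filter Topology Complex
open scoped ENNReal

namespace Pool.Agent.EQZ

section form

variable {ι : Type*} [Fintype ι]

theorem omega0_add_left (u u' v : ι → ℂ) : omega0 (u + u') v = omega0 u v + omega0 u' v := by
  unfold omega0
  rw [← Finset.sum_add_distrib]
  exact Finset.sum_congr rfl fun j _ => by simp only [Pi.add_apply, add_re, add_im]; ring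

theorem omega0_smul_left (c : ℝ) (u v : ι → ℂ) : omega0 (c • u) v = c * omega0 u v := by
  unfold omega0
  rw [Finset.mul_sum]
  exact Finset.sum_congr rfl fun j _ => by
    simp only [Pi.smul_apply, smul_re, smul_im, smul_eq_mul]; ring

theorem omega0_neg (u v : ι → ℂ) : omega0 v u = -omega0 u v := by
  unfold omega0
  rw [← Finset.sum_neg_distrib]
  exact Finset.sum_congr rfl fun j _ => by ring

theorem omega0_add_right (u v v' : ι → ℂ) : omega0 u (v + v') = omega0 u v + omega0 u v' := by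
  rw [omega0_neg (v + v') u, omega0_add_left, omega0_neg v u, omega0_neg v' u]; ring

theorem omega0_smul_right (c : ℝ) (u v : ι → ℂ) : omega0 u (c • v) = c * omega0 u v := by
  rw [omega0_neg (c • v) u, omega0_smul_left, omega0_neg v u]; ring

theorem omega0_self (u : ι → ℂ) : omega0 u u = 0 := by
  have := omega0_neg u u
  linarith

theorem eq_zero_of_omega0 {u : ι → ℂ} (h : ∀ v, omega0 u v = 0) : u = 0 := by
  classical
  funext j
  have h1 : ∀ c : ℂ, (u j).re * c.im - (u j).im * c.re = 0 := by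
    intro c
    have h2 := h (Pi.single j c)
    unfold omega0 at h2
    rw [Finset.sum_eq_single j] at h2
    · rwa [Pi.single_eq_same] at h2
    · intro i _ hi
      rw [Pi.single_eq_of_ne hi]
      simp
    · intro hj; exact absurd (Finset.mem_univ j) hj
  have h2 := h1 Complex.I
  have h3 := h1 1
  simp at h2 h3
  exact Complex.ext h2 h3

/-- the symplectic form as a continuous bilinear map -/
noncomputable def Om (ι : Type*) [Fintype ι] : (ι → ℂ) →L[ℝ] (ι → ℂ) →L[ℝ] ℝ :=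
  LinearMap.toContinuousLinearMap
    ((LinearMap.toContinuousLinearMap (𝕜 := ℝ) (E := ι → ℂ) (F' := ℝ)).toLinearMap.comp
      (LinearMap.mk₂ ℝ (fun u v : ι → ℂ => omega0 u v) (fun u u' v => omega0_add_left u u' v)
        (fun c u v => omega0_smul_left c u v) (fun u v v' => omega0_add_right u v v')
        (fun c u v => omega0_smul_right c u v)))

theorem Om_apply (u v : ι → ℂ) : Om ι u v = omega0 u v := rfl

/-- an injective smooth map with symplectic derivative is a symplectic embedding -/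
theorem isSymplecticEmbedding_of_injOn {U V : Set (ι → ℂ)} {φ : (ι → ℂ) → (ι → ℂ)}
    (hU : IsOpen U) (hφ : ContDiffOn ℝ ((⊤ : ℕ∞) : WithTop ℕ∞) φ U) (hm : MapsTo φ U V)
    (hi : InjOn φ U)
    (hs : ∀ z ∈ U, ∀ u v : ι → ℂ, omega0 (fderiv ℝ φ z u) (fderiv ℝ φ z v) = omega0 u v) :
    IsSymplecticEmbedding U V φ := by
  have hd : DifferentiableOn ℝ φ U := hφ.differentiableOn (by simp)
  refine ⟨⟨hd, hm, hs⟩, hφ, ?_⟩
  have hinj : Function.Injective (fun z : U => φ z) := by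
    intro z z' h
    exact Subtype.ext (hi z.2 z'.2 h)
  have hcont : Continuous (fun z : U => φ z) := by
    have := hφ.continuousOn
    exact continuousOn_iff_continuous_domRestrict.1 this
  have hopen : IsOpenMap (fun z : U => φ z) := by
    rw [isOpenMap_iff_nhds_le]
    intro z
    have hfa : ContDiffAt ℝ ((⊤ : ℕ∞) : WithTop ℕ∞) φ z := hφ.contDiffAt (hU.mem_nhds z.2)
    have hdiff : DifferentiableAt ℝ φ z := hfa.differentiableAt (by simp)
    have hdi : Function.Injective (fderiv ℝ φ (z : ι → ℂ)) := by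
      rw [injective_iff_map_eq_zero]
      intro u hu
      apply eq_zero_of_omega0
      intro v
      rw [← hs z z.2 u v, hu]
      simp [omega0]
    set e : (ι → ℂ) ≃L[ℝ] (ι → ℂ) :=
      (LinearEquiv.ofInjectiveEndo (fderiv ℝ φ (z : ι → ℂ) : (ι → ℂ) →ₗ[ℝ] (ι → ℂ))
        hdi).toContinuousLinearEquiv with he
    have he' : (e : (ι → ℂ) →L[ℝ] (ι → ℂ)) = fderiv ℝ φ (z : ι → ℂ) := by
      ext x; rfl
    have hfd : HasFDerivAt φ (e : (ι → ℂ) →L[ℝ] (ι → ℂ)) (z : ι → ℂ) := by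
      rw [he']; exact hdiff.hasFDerivAt
    have h1 := (hfa.hasStrictFDerivAt' hfd (by simp)).map_nhds_eq_of_equiv
    have h2 : map (fun z : U => φ z) (𝓝 z) = map φ (𝓝 (z : ι → ℂ)) := by
      rw [show (fun z : U => φ z) = φ ∘ Subtype.val from rfl, ← Filter.map_map,
        map_nhds_subtype_coe_eq_nhds z.2 (hU.mem_nhds z.2)]
    rw [h2, h1]
  exact (IsOpenEmbedding.of_continuous_injective_isOpenMap hcont hinj hopen).isEmbedding

/-- composition -/
theorem IsSymplecticEmbedding.comp {U V W : Set (ι → ℂ)} {φ ψ : (ι → ℂ) → (ι → ℂ)}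
    (hU : IsOpen U) (hV : IsOpen V)
    (hψ : IsSymplecticEmbedding V W ψ) (hφ : IsSymplecticEmbedding U V φ) :
    IsSymplecticEmbedding U W (ψ ∘ φ) := by
  refine isSymplecticEmbedding_of_injOn hU (hψ.smooth.comp hφ.smooth hφ.mapsTo)
    (hψ.mapsTo.comp hφ.mapsTo) ?_ ?_
  · intro z hz z' hz' h
    have h1 : φ z = φ z' := by
      have := hψ.embedding.injective (a₁ := ⟨φ z, hφ.mapsTo hz⟩) (a₂ := ⟨φ z', hφ.mapsTo hz'⟩) h
      exact congrArg Subtype.val this
    have := hφ.embedding.injective (a₁ := ⟨z, hz⟩) (a₂ := ⟨z', hz'⟩) h1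
    exact congrArg Subtype.val this
  · intro z hz u v
    have h1 : DifferentiableAt ℝ φ z := hφ.differentiable.differentiableAt (hU.mem_nhds hz)
    have h2 : DifferentiableAt ℝ ψ (φ z) :=
      hψ.differentiable.differentiableAt (hV.mem_nhds (hφ.mapsTo hz))
    rw [fderiv_comp z h2 h1]
    simp only [ContinuousLinearMap.comp_apply]
    rw [hψ.symplectic _ (hφ.mapsTo hz), hφ.symplectic _ hz]

theorem convex_el {α : ι → ℝ} (hα : ∀ j, 0 ≤ α j) : Convex ℝ (El α) := by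
  intro x hx y hy s t hs ht hst
  unfold El at *
  simp only [mem_ofPred_eq] at *
  have h1 : ∀ j, Real.pi * ‖(s • x + t • y) j‖ ^ 2 * α j
      ≤ s * (Real.pi * ‖x j‖ ^ 2 * α j) + t * (Real.pi * ‖y j‖ ^ 2 * α j) := by
    intro j
    have h2 : ‖(s • x + t • y) j‖ ≤ s * ‖x j‖ + t * ‖y j‖ := by
      refine (norm_add_le _ _).trans ?_
      rw [Pi.smul_apply, Pi.smul_apply, norm_smul, norm_smul, Real.norm_eq_abs,
        Real.norm_eq_abs, abs_of_nonneg hs, abs_of_nonneg ht]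
    have h3 : ‖(s • x + t • y) j‖ ^ 2 ≤ s * ‖x j‖ ^ 2 + t * ‖y j‖ ^ 2 := by
      have h4 : ‖(s • x + t • y) j‖ ^ 2 ≤ (s * ‖x j‖ + t * ‖y j‖) ^ 2 :=
        pow_le_pow_left₀ (norm_nonneg _) h2 2
      have h5 : s * ‖x j‖ ^ 2 + t * ‖y j‖ ^ 2 - (s * ‖x j‖ + t * ‖y j‖) ^ 2
          = s * t * (‖x j‖ - ‖y j‖) ^ 2 := by
        have : t = 1 - s := by linarith
        rw [this]; ring
      nlinarith [mul_nonneg (mul_nonneg hs ht) (sq_nonneg (‖x j‖ - ‖y j‖))]
    have h6 := mul_le_mul_of_nonneg_left h3 (mul_nonneg Real.pi_pos.le (hα j))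
    nlinarith
  calc ∑ j, Real.pi * ‖(s • x + t • y) j‖ ^ 2 * α j
      ≤ ∑ j, (s * (Real.pi * ‖x j‖ ^ 2 * α j) + t * (Real.pi * ‖y j‖ ^ 2 * α j)) :=
        Finset.sum_le_sum fun j _ => h1 j
    _ = s * ∑ j, Real.pi * ‖x j‖ ^ 2 * α j + t * ∑ j, Real.pi * ‖y j‖ ^ 2 * α j := by
        rw [Finset.sum_add_distrib, Finset.mul_sum, Finset.mul_sum]
    _ < 1 := by
        rcases hs.eq_or_lt with h | h
        · have : t = 1 := by linarith
          rw [← h, this]; linarith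
        · nlinarith

/-- the one form `x ↦ ω(ψ(x), dψ_x ·) - ω(x, ·)` has a smooth primitive -/
theorem exists_primitive {U : Set (ι → ℂ)} (hU : IsOpen U) (hc : Convex ℝ U)
    {ψ : (ι → ℂ) → (ι → ℂ)} (hψ : ContDiffOn ℝ ((⊤ : ℕ∞) : WithTop ℕ∞) ψ U)
    (hs : ∀ z ∈ U, ∀ u v : ι → ℂ, omega0 (fderiv ℝ ψ z u) (fderiv ℝ ψ z v) = omega0 u v) :
    ∃ G : (ι → ℂ) → ℝ, ContDiffOn ℝ ((⊤ : ℕ∞) : WithTop ℕ∞) G U ∧ ∀ x ∈ U,
      HasFDerivAt G (fderiv ℝ G x) x ∧
      ∀ v, fderiv ℝ G x v = omega0 (ψ x) (fderiv ℝ ψ x v) - omega0 x v := by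
  set w : (ι → ℂ) → ((ι → ℂ) →L[ℝ] ℝ) := fun x =>
    (Om ι (ψ x)).comp (fderiv ℝ ψ x) - Om ι x with hw
  have hfd : ContDiffOn ℝ ((⊤ : ℕ∞) : WithTop ℕ∞) (fderiv ℝ ψ) U :=
    hψ.fderiv_of_isOpen hU (by simp)
  have hws : ContDiffOn ℝ ((⊤ : ℕ∞) : WithTop ℕ∞) w U :=
    (((Om ι).contDiff.comp_contDiffOn hψ).clm_comp hfd).sub (Om ι).contDiff.contDiffOn
  have hsymm : ∀ a ∈ U, ∀ x y, fderiv ℝ w a x y = fderiv ℝ w a y x := by
    intro a ha x y
    have hψa : ContDiffAt ℝ ((⊤ : ℕ∞) : WithTop ℕ∞) ψ a := hψ.contDiffAt (hU.mem_nhds ha)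
    have h0 : HasFDerivAt ψ (fderiv ℝ ψ a) a := (hψa.differentiableAt (by simp)).hasFDerivAt
    have h1 : HasFDerivAt (fun y => Om ι (ψ y)) ((Om ι).comp (fderiv ℝ ψ a)) a :=
      (Om ι).hasFDerivAt.comp a h0
    have h2 : HasFDerivAt (fderiv ℝ ψ) (fderiv ℝ (fderiv ℝ ψ) a) a :=
      (((hfd.contDiffAt (hU.mem_nhds ha))).differentiableAt (by simp)).hasFDerivAt
    have h3 := (h1.clm_comp h2).sub (Om ι).hasFDerivAt
    have h4 : fderiv ℝ w a = _ := h3.fderiv
    have hsd : IsSymmSndFDerivAt ℝ ψ a :=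
      hψa.isSymmSndFDerivAt (by
        rw [minSmoothness_of_isRCLikeNormedField]
        change ((2 : ℕ∞) : WithTop ℕ∞) ≤ _
        exact WithTop.coe_le_coe.2 le_top)
    rw [h4]
    simp only [_root_.sub_apply, _root_.add_apply, ContinuousLinearMap.comp_apply,
      ContinuousLinearMap.compL_apply, ContinuousLinearMap.flip_apply, Om_apply]
    rw [hs a ha, hs a ha, hsd.eq x y, omega0_neg x y]
    ring
  obtain ⟨G, hG⟩ := hc.exists_forall_hasFDerivAt_of_fderiv_symmetric hU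
    (hws.differentiableOn (by simp)) hsymm
  have hGf : ∀ x ∈ U, fderiv ℝ G x = w x := fun x hx => (hG x hx).fderiv
  refine ⟨G, ?_, ?_⟩
  · rw [contDiffOn_infty_iff_fderiv_of_isOpen hU]
    refine ⟨fun x hx => (hG x hx).differentiableAt.differentiableWithinAt, ?_⟩
    exact hws.congr hGf
  · intro x hx
    refine ⟨(hG x hx).differentiableAt.hasFDerivAt, fun v => ?_⟩
    rw [hGf x hx]
    rfl

end form

end Pool.Agent.EQZ
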