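import Pool.Agent.EQZ.Prim

/-!
# Equivariant suspension of a symplectic embedding of ellipsoids
-/

open Set Filter Topology Complex
open scoped ENNReal

namespace Pool.Agent.EQZ

noncomputable section

variable {ι : Type*} [Fintype ι] (N : ι → Prop) [DecidablePred N]

/-- the coordinates in `N` -/
def res : (ι → ℂ) →L[ℝ] ({j // N j} → ℂ) :=
  ContinuousLinearMap.pi fun j => ContinuousLinearMap.proj (R := ℝ) (φ := fun _ : ι => ℂ) (j : ι)

theorem res_apply (z : ι → ℂ) (j : {j // N j}) : res N z j = z j := rfl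

/-- the square root of `1 - π ∑ γ_j |z_j|²` -/
def sc (γ : ι → ℝ) (z : ι → ℂ) : ℝ := Real.sqrt (1 - Real.pi * ham γ z)

/-- the rescaled coordinates in `N` -/
def xx (γ : ι → ℝ) (z : ι → ℂ) : {j // N j} → ℂ := (sc γ z)⁻¹ • res N z

/-- the suspension -/
def susp (γ : ι → ℝ) (ψ : ({j // N j} → ℂ) → ({j // N j} → ℂ)) (G : ({j // N j} → ℂ) → ℝ)
    (z : ι → ℂ) : ι → ℂ :=
  fun j => if h : N j then (sc γ z • ψ (xx N γ z)) ⟨j, h⟩
    else exp ((Real.pi * γ j * G (xx N γ z) : ℝ) * I) * z j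

theorem sum_split (f : ι → ℝ) :
    ∑ j, f j = ∑ j : {j // N j}, f j + ∑ j : {j // ¬ N j}, f j :=
  (Fintype.sum_subtype_add_sum_subtype N f).symm

variable {N}

omit [DecidablePred N] in
theorem hasFDerivAt_sc {γ : ι → ℝ} {z : ι → ℂ} (hz : 0 < 1 - Real.pi * ham γ z) :
    ∃ s' : (ι → ℂ) →L[ℝ] ℝ, HasFDerivAt (sc γ) s' z ∧
      ∀ u, sc γ z * s' u = Real.pi * omega0 (gen γ z) u := by
  obtain ⟨L, hL, hLv⟩ := hasFDerivAt_ham γ z
  have h1 : HasFDerivAt (fun z => 1 - Real.pi * ham γ z) (-(Real.pi • L)) z := by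
    have := (hL.const_mul Real.pi).const_sub 1
    exact this
  have h2 := h1.sqrt hz.ne'
  refine ⟨_, h2, fun u => ?_⟩
  have h3 : 0 < sc γ z := Real.sqrt_pos.2 hz
  change sc γ z * ((1 / (2 * sc γ z)) • -(Real.pi • L)) u = _
  simp only [_root_.smul_apply, _root_.neg_apply, smul_eq_mul, hLv]
  field_simp

theorem hasFDerivAt_xx {γ : ι → ℝ} {z : ι → ℂ} (hz : 0 < 1 - Real.pi * ham γ z)
    {s' : (ι → ℂ) →L[ℝ] ℝ} (hs' : HasFDerivAt (sc γ) s' z) :
    ∃ X : (ι → ℂ) →L[ℝ] ({j // N j} → ℂ), HasFDerivAt (xx N γ) X z ∧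
      ∀ u, sc γ z • X u = res N u - s' u • xx N γ z := by
  have h3 : 0 < sc γ z := Real.sqrt_pos.2 hz
  have h1 : HasFDerivAt (fun z => (sc γ z)⁻¹) (-((sc γ z) ^ 2)⁻¹ • s') z :=
    (hasDerivAt_inv h3.ne').comp_hasFDerivAt z hs'
  have h2 := h1.smul (res N).hasFDerivAt
  refine ⟨_, h2, fun u => ?_⟩
  simp only [_root_.add_apply, _root_.smul_apply, ContinuousLinearMap.smulRight_apply, smul_add,
    smul_smul, smul_eq_mul, xx]
  rw [mul_inv_cancel₀ h3.ne', one_smul, sub_eq_add_neg, ← neg_smul]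
  congr 2
  field_simp

theorem om_unit {E a b : ℂ} (hE : E.re * E.re + E.im * E.im = 1) :
    (E * a).re * (E * b).im - (E * a).im * (E * b).re = a.re * b.im - a.im * b.re := by
  simp only [mul_re, mul_im]
  have : (E.re * a.re - E.im * a.im) * (E.re * b.im + E.im * b.re)
      - (E.re * a.im + E.im * a.re) * (E.re * b.re - E.im * b.im)
      = (E.re * E.re + E.im * E.im) * (a.re * b.im - a.im * b.re) := by ring
  rw [this, hE, one_mul]

theorem exp_unit (θ : ℝ) : (exp ((θ : ℂ) * I)).re * (exp ((θ : ℂ) * I)).re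
    + (exp ((θ : ℂ) * I)).im * (exp ((θ : ℂ) * I)).im = 1 := by
  rw [exp_ofReal_mul_I_re, exp_ofReal_mul_I_im]
  have := Real.sin_sq_add_cos_sq θ
  nlinarith

theorem hasFDerivAt_susp {γ : ι → ℝ} {ψ : ({j // N j} → ℂ) → ({j // N j} → ℂ)}
    {G : ({j // N j} → ℂ) → ℝ} {z : ι → ℂ}
    {s' : (ι → ℂ) →L[ℝ] ℝ} (hs' : HasFDerivAt (sc γ) s' z)
    {X : (ι → ℂ) →L[ℝ] ({j // N j} → ℂ)} (hX : HasFDerivAt (xx N γ) X z)
    (hψ : HasFDerivAt ψ (fderiv ℝ ψ (xx N γ z)) (xx N γ z))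
    (hG : HasFDerivAt G (fderiv ℝ G (xx N γ z)) (xx N γ z)) :
    ∃ D : (ι → ℂ) →L[ℝ] (ι → ℂ), HasFDerivAt (susp N γ ψ G) D z ∧
      (∀ u (j : {j // N j}), D u j
        = (s' u • ψ (xx N γ z) + sc γ z • fderiv ℝ ψ (xx N γ z) (X u)) j) ∧
      (∀ u (j : ι), ¬ N j → D u j = exp ((Real.pi * γ j * G (xx N γ z) : ℝ) * I) *
        (u j + ((Real.pi * γ j * fderiv ℝ G (xx N γ z) (X u) : ℝ) : ℂ) * I * z j)) := by
  have h1 : HasFDerivAt (fun z => sc γ z • ψ (xx N γ z))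
      (sc γ z • (fderiv ℝ ψ (xx N γ z)).comp X + s'.smulRight (ψ (xx N γ z))) z :=
    hs'.smul (hψ.comp z hX)
  have h2 : ∀ j : {j // N j}, HasFDerivAt (fun z => (sc γ z • ψ (xx N γ z)) j)
      ((ContinuousLinearMap.proj (R := ℝ) (φ := fun _ : {j // N j} => ℂ) j).comp
        (sc γ z • (fderiv ℝ ψ (xx N γ z)).comp X + s'.smulRight (ψ (xx N γ z)))) z := by
    intro j
    rw [hasFDerivAt_pi'] at h1
    exact h1 j
  have hGX : HasFDerivAt (fun z => G (xx N γ z)) ((fderiv ℝ G (xx N γ z)).comp X) z :=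
    hG.comp z hX
  have h3 : ∀ j : ι, HasFDerivAt
      (fun z : ι → ℂ => exp ((Real.pi * γ j * G (xx N γ z) : ℝ) * I) * z j)
      (exp ((Real.pi * γ j * G (xx N γ z) : ℝ) * I) •
        (ContinuousLinearMap.proj (R := ℝ) (φ := fun _ : ι => ℂ) j) +
        (z j) • (exp ((Real.pi * γ j * G (xx N γ z) : ℝ) * I) •
          ((I : ℂ) • (Complex.ofRealCLM.comp
            ((Real.pi * γ j) • (fderiv ℝ G (xx N γ z)).comp X))))) z := by
    intro j
    have e1 : HasFDerivAt (fun z => Real.pi * γ j * G (xx N γ z))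
        ((Real.pi * γ j) • (fderiv ℝ G (xx N γ z)).comp X) z := hGX.const_mul _
    have e2 : HasFDerivAt (fun z => ((Real.pi * γ j * G (xx N γ z) : ℝ) : ℂ))
        (Complex.ofRealCLM.comp ((Real.pi * γ j) • (fderiv ℝ G (xx N γ z)).comp X)) z :=
      Complex.ofRealCLM.hasFDerivAt.comp z e1
    have e3 := (e2.mul_const I).cexp
    have e4 : HasFDerivAt (fun z : ι → ℂ => z j)
        (ContinuousLinearMap.proj (R := ℝ) (φ := fun _ : ι => ℂ) j) z :=
      (ContinuousLinearMap.proj (R := ℝ) (φ := fun _ : ι => ℂ) j).hasFDerivAt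
    exact e3.mul e4
  refine ⟨ContinuousLinearMap.pi fun j => if h : N j then
      (ContinuousLinearMap.proj (R := ℝ) (φ := fun _ : {j // N j} => ℂ) ⟨j, h⟩).comp
        (sc γ z • (fderiv ℝ ψ (xx N γ z)).comp X + s'.smulRight (ψ (xx N γ z)))
      else exp ((Real.pi * γ j * G (xx N γ z) : ℝ) * I) •
        (ContinuousLinearMap.proj (R := ℝ) (φ := fun _ : ι => ℂ) j) +
        (z j) • (exp ((Real.pi * γ j * G (xx N γ z) : ℝ) * I) •
          ((I : ℂ) • (Complex.ofRealCLM.comp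
            ((Real.pi * γ j) • (fderiv ℝ G (xx N γ z)).comp X)))), ?_, ?_, ?_⟩
  · rw [hasFDerivAt_pi]
    intro j
    by_cases h : N j
    · rw [dif_pos h]
      have h4 : (fun z => susp N γ ψ G z j) = fun z => (sc γ z • ψ (xx N γ z)) ⟨j, h⟩ := by
        funext z
        unfold susp
        rw [dif_pos h]
      rw [h4]
      exact h2 ⟨j, h⟩
    · rw [dif_neg h]
      have h4 : (fun z => susp N γ ψ G z j)
          = fun z => exp ((Real.pi * γ j * G (xx N γ z) : ℝ) * I) * z j := by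
        funext z
        unfold susp
        rw [dif_neg h]
      rw [h4]
      exact h3 j
  · intro u j
    rw [ContinuousLinearMap.pi_apply, dif_pos j.2]
    simp only [ContinuousLinearMap.comp_apply, _root_.add_apply, _root_.smul_apply,
      ContinuousLinearMap.smulRight_apply, ContinuousLinearMap.proj_apply, Pi.add_apply]
    rw [add_comm]
  · intro u j h
    rw [ContinuousLinearMap.pi_apply, dif_neg h]
    simp only [ContinuousLinearMap.comp_apply, _root_.add_apply, _root_.smul_apply,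
      ContinuousLinearMap.proj_apply, Complex.ofRealCLM_apply, smul_eq_mul]
    push_cast
    ring

end

end Pool.Agent.EQZ
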