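import Pool.Agent.EQZ.Susp

/-!
# Equivariant suspension of a symplectic embedding of ellipsoids: the theorem
-/

open Set Filter Topology Complex
open scoped ENNReal

namespace Pool.Agent.EQZ

noncomputable section

variable {ι : Type*} [Fintype ι] {N : ι → Prop} [DecidablePred N]

/-- the algebra in the coordinates outside `N` -/
theorem om_shear {E u v z : ℂ} (hE : E.re * E.re + E.im * E.im = 1) (p q : ℝ) :
    (E * (u + (p : ℂ) * I * z)).re * (E * (v + (q : ℂ) * I * z)).im
      - (E * (u + (p : ℂ) * I * z)).im * (E * (v + (q : ℂ) * I * z)).re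
      = (u.re * v.im - u.im * v.re) + q * (u.re * z.re + u.im * z.im)
        - p * (v.re * z.re + v.im * z.im) := by
  rw [om_unit hE]
  simp only [add_re, add_im, mul_re, mul_im, ofReal_re, ofReal_im, I_re, I_im]
  ring

theorem gen_pair (γ : ι → ℝ) (z u : ι → ℂ) :
    omega0 (gen γ z) u = -∑ j, γ j * ((u j).re * (z j).re + (u j).im * (z j).im) := by
  unfold omega0 gen
  rw [← Finset.sum_neg_distrib]
  refine Finset.sum_congr rfl fun j _ => ?_
  simp only [mul_re, mul_im, ofReal_re, ofReal_im, I_re, I_im]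
  ring

/-- the suspension is symplectic -/
theorem omega0_susp {γ : ι → ℝ} (hγ : ∀ j, N j → γ j = 0)
    {ψ : ({j // N j} → ℂ) → ({j // N j} → ℂ)}
    {G : ({j // N j} → ℂ) → ℝ} {z : ι → ℂ} (hz : 0 < 1 - Real.pi * ham γ z)
    (hψ : HasFDerivAt ψ (fderiv ℝ ψ (xx N γ z)) (xx N γ z))
    (hψ2 : ∀ u v, omega0 (fderiv ℝ ψ (xx N γ z) u) (fderiv ℝ ψ (xx N γ z) v) = omega0 u v)
    (hG : HasFDerivAt G (fderiv ℝ G (xx N γ z)) (xx N γ z))
    (hG2 : ∀ v, fderiv ℝ G (xx N γ z) v
      = omega0 (ψ (xx N γ z)) (fderiv ℝ ψ (xx N γ z) v) - omega0 (xx N γ z) v)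
    (u v : ι → ℂ) :
    omega0 (fderiv ℝ (susp N γ ψ G) z u) (fderiv ℝ (susp N γ ψ G) z v) = omega0 u v := by
  obtain ⟨s', hs', hsu⟩ := hasFDerivAt_sc hz
  obtain ⟨X, hX, hXu⟩ := hasFDerivAt_xx (N := N) hz hs'
  obtain ⟨D, hD, hDN, hDW⟩ := hasFDerivAt_susp hs' hX hψ hG
  rw [hD.fderiv]
  have hs : 0 < sc γ z := Real.sqrt_pos.2 hz
  set s := sc γ z with hsdef
  set x := xx N γ z with hx
  set P := fderiv ℝ ψ x with hP
  set g := fderiv ℝ G x with hg
  -- the coordinates in `N`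
  have hA : ∀ u, s' u • ψ x + s • P (X u) = s' u • (ψ x - P x) + P (res N u) := by
    intro u
    rw [← map_smul, hXu u, map_sub, map_smul, smul_sub]
    abel
  have hgP : ∀ w, omega0 (ψ x - P x) (P w) = g w := by
    intro w
    rw [hG2 w, sub_eq_add_neg, omega0_add_left, ← neg_one_smul ℝ (P x), omega0_smul_left, hψ2]
    ring
  have hN : ∀ u v, omega0 (s' u • ψ x + s • P (X u)) (s' v • ψ x + s • P (X v))
      = omega0 (res N u) (res N v) + s' u * g (res N v) - s' v * g (res N u) := by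
    intro u v
    rw [hA u, hA v]
    set e := ψ x - P x with he
    rw [omega0_add_left, omega0_add_right, omega0_add_right, omega0_smul_left, omega0_smul_left,
      omega0_smul_right, omega0_smul_right, omega0_self, hψ2, hgP, omega0_neg e (P (res N u)), hgP]
    ring
  have hgX : ∀ u, s * g (X u) = g (res N u) - s' u * g x := by
    intro u
    have h1 : s * g (X u) = g (s • X u) := by rw [map_smul, smul_eq_mul]
    rw [h1, hXu u, map_sub, map_smul, smul_eq_mul]
  unfold omega0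
  rw [sum_split N, sum_split N (fun j => (u j).re * (v j).im - (u j).im * (v j).re)]
  have h1 : ∑ j : {j // N j}, ((D u j).re * (D v j).im - (D u j).im * (D v j).re)
      = omega0 (s' u • ψ x + s • P (X u)) (s' v • ψ x + s • P (X v)) := by
    unfold omega0
    exact Finset.sum_congr rfl fun j _ => by rw [hDN u j, hDN v j]
  have h2 : ∑ j : {j // ¬ N j}, ((D u j).re * (D v j).im - (D u j).im * (D v j).re)
      = ∑ j : {j // ¬ N j}, ((u j).re * (v j).im - (u j).im * (v j).re)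
        + ∑ j : {j // ¬ N j}, (Real.pi * γ j * g (X v) * ((u j).re * (z j).re + (u j).im * (z j).im)
          - Real.pi * γ j * g (X u) * ((v j).re * (z j).re + (v j).im * (z j).im)) := by
    rw [← Finset.sum_add_distrib]
    refine Finset.sum_congr rfl fun j _ => ?_
    rw [hDW u j j.2, hDW v j j.2, om_shear (exp_unit _)]
    ring
  have h3 : ∑ j : {j // ¬ N j}, (Real.pi * γ j * g (X v) * ((u j).re * (z j).re + (u j).im * (z j).im)
          - Real.pi * γ j * g (X u) * ((v j).re * (z j).re + (v j).im * (z j).im))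
      = ∑ j, (Real.pi * γ j * g (X v) * ((u j).re * (z j).re + (u j).im * (z j).im)
          - Real.pi * γ j * g (X u) * ((v j).re * (z j).re + (v j).im * (z j).im)) := by
    rw [sum_split N (fun j => Real.pi * γ j * g (X v) * ((u j).re * (z j).re + (u j).im * (z j).im)
          - Real.pi * γ j * g (X u) * ((v j).re * (z j).re + (v j).im * (z j).im))]
    rw [Finset.sum_eq_zero (s := (Finset.univ : Finset {j // N j})), zero_add]
    intro j _
    rw [hγ j j.2]; ring
  have h4 : ∑ j, (Real.pi * γ j * g (X v) * ((u j).re * (z j).re + (u j).im * (z j).im)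
          - Real.pi * γ j * g (X u) * ((v j).re * (z j).re + (v j).im * (z j).im))
      = g (X v) * (Real.pi * ∑ j, γ j * ((u j).re * (z j).re + (u j).im * (z j).im))
        - g (X u) * (Real.pi * ∑ j, γ j * ((v j).re * (z j).re + (v j).im * (z j).im)) := by
    rw [Finset.sum_sub_distrib, Finset.mul_sum, Finset.mul_sum, Finset.mul_sum, Finset.mul_sum]
    congr 1
    · exact Finset.sum_congr rfl fun j _ => by ring
    · exact Finset.sum_congr rfl fun j _ => by ring
  have h5 : ∀ u, Real.pi * ∑ j, γ j * ((u j).re * (z j).re + (u j).im * (z j).im) = -(s * s' u) := by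
    intro u
    rw [hsu u, gen_pair]
    ring
  have h6 : omega0 (res N u) (res N v)
      = ∑ j : {j // N j}, ((u j).re * (v j).im - (u j).im * (v j).re) := rfl
  rw [h1, h2, h3, h4, h5, h5, hN, h6]
  have h7 := hgX u
  have h8 := hgX v
  linear_combination (-s' u) * h8 + s' v * h7

theorem contDiff_ham (γ : ι → ℝ) : ContDiff ℝ ((⊤ : ℕ∞) : WithTop ℕ∞) (ham γ : (ι → ℂ) → ℝ) := by
  unfold ham
  refine ContDiff.sum fun j _ => contDiff_const.mul ?_
  have hj : ContDiff ℝ ((⊤ : ℕ∞) : WithTop ℕ∞) (fun z : ι → ℂ => z j) :=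
    (ContinuousLinearMap.proj (R := ℝ) (φ := fun _ : ι => ℂ) j).contDiff
  exact ((Complex.reCLM.contDiff.comp hj).pow 2).add ((Complex.imCLM.contDiff.comp hj).pow 2)

/-- smoothness of the suspension -/
theorem contDiffAt_susp {γ : ι → ℝ}
    {ψ : ({j // N j} → ℂ) → ({j // N j} → ℂ)}
    {G : ({j // N j} → ℂ) → ℝ} {z : ι → ℂ} (hz : 0 < 1 - Real.pi * ham γ z)
    (hψ : ContDiffAt ℝ ((⊤ : ℕ∞) : WithTop ℕ∞) ψ (xx N γ z))
    (hG : ContDiffAt ℝ ((⊤ : ℕ∞) : WithTop ℕ∞) G (xx N γ z)) :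
    ContDiffAt ℝ ((⊤ : ℕ∞) : WithTop ℕ∞) (susp N γ ψ G) z := by
  have hs : ContDiffAt ℝ ((⊤ : ℕ∞) : WithTop ℕ∞) (sc γ) z :=
    ContDiffAt.sqrt (contDiffAt_const.sub (contDiffAt_const.mul (contDiff_ham γ).contDiffAt)) hz.ne'
  have hs0 : sc γ z ≠ 0 := (Real.sqrt_pos.2 hz).ne'
  have hx : ContDiffAt ℝ ((⊤ : ℕ∞) : WithTop ℕ∞) (xx N γ) z :=
    (hs.inv hs0).smul (res N).contDiff.contDiffAt
  rw [contDiffAt_pi]
  intro j
  by_cases h : N j
  · have h4 : (fun z => susp N γ ψ G z j) = fun z => (sc γ z • ψ (xx N γ z)) ⟨j, h⟩ := by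
      funext z
      unfold susp
      rw [dif_pos h]
    rw [h4]
    have h5 : ContDiffAt ℝ ((⊤ : ℕ∞) : WithTop ℕ∞) (fun z => sc γ z • ψ (xx N γ z)) z :=
      hs.smul (hψ.comp z hx)
    rw [contDiffAt_pi] at h5
    exact h5 ⟨j, h⟩
  · have h4 : (fun z => susp N γ ψ G z j)
        = fun z => exp ((Real.pi * γ j * G (xx N γ z) : ℝ) * I) * z j := by
      funext z
      unfold susp
      rw [dif_neg h]
    rw [h4]
    have hj : ContDiffAt ℝ ((⊤ : ℕ∞) : WithTop ℕ∞) (fun z : ι → ℂ => z j) z :=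
      (ContinuousLinearMap.proj (R := ℝ) (φ := fun _ : ι => ℂ) j).contDiff.contDiffAt
    have h6 : ContDiffAt ℝ ((⊤ : ℕ∞) : WithTop ℕ∞)
        (fun z => Real.pi * γ j * G (xx N γ z)) z :=
      contDiffAt_const.mul (hG.comp z hx)
    have h7 : ContDiffAt ℝ ((⊤ : ℕ∞) : WithTop ℕ∞)
        (fun z => ((Real.pi * γ j * G (xx N γ z) : ℝ) : ℂ) * I) z :=
      (Complex.ofRealCLM.contDiff.contDiffAt.comp z h6).mul contDiffAt_const
    exact h7.cexp.mul hj

/-- **Equivariant suspension.** -/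
theorem susp_embedding {α β : ι → ℝ} (hα : ∀ j, 0 ≤ α j)
    (hαβ : ∀ j, ¬ N j → β j = α j)
    {ψ : ({j // N j} → ℂ) → ({j // N j} → ℂ)}
    (hψ : IsSymplecticEmbedding (El fun j : {j // N j} => α j) (El fun j : {j // N j} => β j) ψ) :
    ∃ φ, IsSymplecticEmbedding (El α) (El β) φ ∧
      ∀ (k : ℕ) (χ : ι → Fin k → ℤ), (∀ j, N j → χ j = 0) →
        ∀ t z, φ (act χ t z) = act χ t (φ z) := by
  set αN : {j // N j} → ℝ := fun j => α j with hαN
  obtain ⟨G, hG, hGx⟩ := exists_primitive (isOpen_el αN) (convex_el fun j => hα j)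
    hψ.smooth hψ.symplectic
  set γ : ι → ℝ := fun j => if N j then 0 else α j with hγ
  have hγN : ∀ j, N j → γ j = 0 := fun j hj => if_pos hj
  have hγW : ∀ j, ¬ N j → γ j = α j := fun j hj => if_neg hj
  have hγ0 : ∀ j, 0 ≤ γ j := by
    intro j
    by_cases h : N j
    · rw [hγN j h]
    · rw [hγW j h]; exact hα j
  -- the decomposition of the defining function
  have hdec : ∀ (β : ι → ℝ), (∀ j, ¬ N j → β j = α j) → ∀ z : ι → ℂ, ∑ j, Real.pi * ‖z j‖ ^ 2 * β j
      = ∑ j : {j // N j}, Real.pi * ‖z j‖ ^ 2 * β j + Real.pi * ham γ z := by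
    intro β hβ z
    rw [sum_split N]
    congr 1
    rw [ham_eq, sum_split N (fun j => γ j * ‖z j‖ ^ 2),
      Finset.sum_eq_zero (s := (Finset.univ : Finset {j // N j})), zero_add, Finset.mul_sum]
    · refine Finset.sum_congr rfl fun j _ => ?_
      rw [hβ j j.2, hγW j j.2]; ring
    · intro j _
      rw [hγN j j.2, zero_mul]
  have hpos : ∀ z ∈ El α, 0 < 1 - Real.pi * ham γ z := by
    intro z hz
    have h1 : ∑ j, Real.pi * ‖z j‖ ^ 2 * α j < 1 := hz
    rw [hdec α (fun j _ => rfl) z] at h1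
    have h2 : 0 ≤ ∑ j : {j // N j}, Real.pi * ‖z j‖ ^ 2 * α j :=
      Finset.sum_nonneg fun j _ => mul_nonneg (by positivity) (hα j)
    linarith
  have hxmem : ∀ z ∈ El α, xx N γ z ∈ El αN := by
    intro z hz
    have h0 := hpos z hz
    have h1 : ∑ j, Real.pi * ‖z j‖ ^ 2 * α j < 1 := hz
    rw [hdec α (fun j _ => rfl) z] at h1
    have hs : 0 < sc γ z := Real.sqrt_pos.2 h0
    have hs2 : (sc γ z) ^ 2 = 1 - Real.pi * ham γ z := Real.sq_sqrt h0.le
    change ∑ j, Real.pi * ‖xx N γ z j‖ ^ 2 * αN j < 1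
    have h2 : ∑ j, Real.pi * ‖xx N γ z j‖ ^ 2 * αN j
        = ((sc γ z) ^ 2)⁻¹ * ∑ j : {j // N j}, Real.pi * ‖z j‖ ^ 2 * α j := by
      rw [Finset.mul_sum]
      refine Finset.sum_congr rfl fun j _ => ?_
      unfold xx
      rw [Pi.smul_apply, norm_smul, Real.norm_eq_abs, abs_of_pos (inv_pos.2 hs), res_apply]
      simp only [hαN]
      field_simp
    rw [h2, inv_mul_lt_iff₀ (by positivity), mul_one, hs2]
    linarith
  have hsuspN : ∀ z (j : {j // N j}), susp N γ ψ G z j = sc γ z • ψ (xx N γ z) j := by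
    intro z j
    unfold susp
    rw [dif_pos j.2]
    rfl
  have hsuspW : ∀ z j, ¬ N j → susp N γ ψ G z j
      = exp ((Real.pi * γ j * G (xx N γ z) : ℝ) * I) * z j := by
    intro z j hj
    unfold susp
    rw [dif_neg hj]
  have hnormW : ∀ z j, ¬ N j → ‖susp N γ ψ G z j‖ = ‖z j‖ := by
    intro z j hj
    rw [hsuspW z j hj, norm_mul, Complex.norm_exp_ofReal_mul_I, one_mul]
  have hham : ∀ z, ham γ (susp N γ ψ G z) = ham γ z := by
    intro z
    rw [ham_eq, ham_eq]
    refine Finset.sum_congr rfl fun j _ => ?_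
    by_cases h : N j
    · rw [hγN j h, zero_mul, zero_mul]
    · rw [hnormW z j h]
  refine ⟨susp N γ ψ G, isSymplecticEmbedding_of_injOn (isOpen_el α) ?_ ?_ ?_ ?_, ?_⟩
  · intro z hz
    exact (contDiffAt_susp (hpos z hz)
      (hψ.smooth.contDiffAt ((isOpen_el αN).mem_nhds (hxmem z hz)))
      (hG.contDiffAt ((isOpen_el αN).mem_nhds (hxmem z hz)))).contDiffWithinAt
  · intro z hz
    have h0 := hpos z hz
    have hs : 0 < sc γ z := Real.sqrt_pos.2 h0
    have hs2 : (sc γ z) ^ 2 = 1 - Real.pi * ham γ z := Real.sq_sqrt h0.le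
    change ∑ j, Real.pi * ‖susp N γ ψ G z j‖ ^ 2 * β j < 1
    rw [hdec β hαβ, hham]
    have h1 : ∑ j : {j // N j}, Real.pi * ‖susp N γ ψ G z j‖ ^ 2 * β j
        = (sc γ z) ^ 2 * ∑ j : {j // N j}, Real.pi * ‖ψ (xx N γ z) j‖ ^ 2 * β j := by
      rw [Finset.mul_sum]
      refine Finset.sum_congr rfl fun j _ => ?_
      rw [hsuspN, norm_smul, Real.norm_eq_abs, abs_of_pos hs]
      ring
    have h2 : ∑ j : {j // N j}, Real.pi * ‖ψ (xx N γ z) j‖ ^ 2 * β j < 1 :=
      hψ.mapsTo (hxmem z hz)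
    rw [h1]
    have h3 : (sc γ z) ^ 2 * ∑ j : {j // N j}, Real.pi * ‖ψ (xx N γ z) j‖ ^ 2 * β j
        < (sc γ z) ^ 2 * 1 := mul_lt_mul_of_pos_left h2 (by positivity)
    linarith
  · intro z hz z' hz' h
    have hh : ham γ z = ham γ z' := by rw [← hham z, ← hham z', h]
    have hsc : sc γ z = sc γ z' := by unfold sc; rw [hh]
    have hs : 0 < sc γ z := Real.sqrt_pos.2 (hpos z hz)
    have h1 : ψ (xx N γ z) = ψ (xx N γ z') := by
      funext j
      have h2 := congrFun h j
      rw [hsuspN, hsuspN, ← hsc] at h2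
      exact smul_right_injective ℂ hs.ne' h2
    have h2 : xx N γ z = xx N γ z' := by
      have := hψ.embedding.injective (a₁ := ⟨xx N γ z, hxmem z hz⟩)
        (a₂ := ⟨xx N γ z', hxmem z' hz'⟩) h1
      exact congrArg Subtype.val this
    funext j
    by_cases hj : N j
    · have h3 := congrFun h2 ⟨j, hj⟩
      unfold xx at h3
      rw [Pi.smul_apply, Pi.smul_apply, ← hsc, res_apply, res_apply] at h3
      exact smul_right_injective ℂ (inv_pos.2 hs).ne' h3
    · have h3 := congrFun h j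
      rw [hsuspW z j hj, hsuspW z' j hj, h2] at h3
      exact mul_left_cancel₀ (exp_ne_zero _) h3
  · intro z hz u v
    have hx := hxmem z hz
    have hψd : HasFDerivAt ψ (fderiv ℝ ψ (xx N γ z)) (xx N γ z) :=
      (hψ.differentiable.differentiableAt ((isOpen_el αN).mem_nhds hx)).hasFDerivAt
    exact omega0_susp hγN (hpos z hz) hψd (hψ.symplectic _ hx) (hGx _ hx).1 (hGx _ hx).2 u v
  · intro k χ hχ t z
    have hN : ∀ j, N j → ∀ z : ι → ℂ, act χ t z j = z j := by
      intro j hj z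
      unfold act
      rw [hχ j hj]
      simp
    have hnorm : ∀ j, ‖act χ t z j‖ = ‖z j‖ := by
      intro j
      unfold act
      rw [norm_mul, Complex.norm_exp_ofReal_mul_I, one_mul]
    have hh : ham γ (act χ t z) = ham γ z := by
      rw [ham_eq, ham_eq]
      exact Finset.sum_congr rfl fun j _ => by rw [hnorm]
    have hsc : sc γ (act χ t z) = sc γ z := by unfold sc; rw [hh]
    have hres : res N (act χ t z) = res N z := by
      funext j
      exact hN j j.2 z
    have hxx : xx N γ (act χ t z) = xx N γ z := by unfold xx; rw [hsc, hres]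
    funext j
    by_cases hj : N j
    · rw [hN j hj]
      have := hsuspN (act χ t z) ⟨j, hj⟩
      rw [hsc, hxx, ← hsuspN z ⟨j, hj⟩] at this
      exact this
    · rw [hsuspW _ j hj, hxx]
      unfold act
      rw [hsuspW z j hj]
      ring

end

end Pool.Agent.EQZ
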